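import Pool.Agent.R410.CB.Pell

/-!
# A split divisor at which the unit of the conic has different orders
-/

set_option autoImplicit false
set_option linter.all false
set_option maxHeartbeats 1000000

namespace Pool.Agent.R410.CB

open Polynomial Pool.Agent.TH943.HJ Pool.Agent.Y707.PC
open Pool.Agent.Y707.DK (irr_up prime_over)

section
variable {M L : Type} [Field M] [Field L] [Algebra M L] {ω : L} {a b c α : M[X]}

theorem prime_CC {δ : M[X]} (h : Irreducible δ) : Prime (C δ : M[X][X]) := prime_C_iff.2 h.prime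

/-- a divisor of the discriminant which does not divide the polynomial -/
theorem claim (hodd : Odd c.natDegree) (hac : a.natDegree < c.natDegree)
    (hbc : b.natDegree < c.natDegree) (ha0 : a ≠ 0)
    (hsq : ∀ δ : M[X], Irreducible δ → ¬ C δ ^ 2 ∣ f2 a b c) :
    ∀ (n : ℕ) (k β Δ : M[X]) (T f : M[X][X]), Δ ≠ 0 → β ≠ 0 → Δ.natDegree ≤ n →
      C k * f = f2 a b c → (∀ δ : M[X], Irreducible δ → δ ∣ Δ → C δ ∣ f2 a b c) →
      C k * T ^ 2 - C (β ^ 2) * f = C Δ → False := by
  intro n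
  induction n using Nat.strong_induction_on with
  | _ n ih =>
  intro k β Δ T f hΔ hβ hn hkf hdv hE
  have hk0 : k ≠ 0 := by
    rintro rfl
    rw [C_0, zero_mul] at hkf
    have h1 := congrArg (fun p => coeff p 2) hkf
    simp only [coeff_zero] at h1
    apply ha0
    have h3 : (f2 a b c).coeff 2 = a := by
      unfold f2
      simp only [coeff_add, coeff_C_mul, coeff_X_pow, coeff_X, coeff_C]
      norm_num
    rw [← h3, ← h1]
  have hco : a = k * f.coeff 2 ∧ c = k * f.coeff 0 := by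
    constructor
    · have h3 : (f2 a b c).coeff 2 = a := by
        unfold f2
        simp only [coeff_add, coeff_C_mul, coeff_X_pow, coeff_X, coeff_C]
        norm_num
      rw [← h3, ← hkf, coeff_C_mul]
    · have h3 : (f2 a b c).coeff 0 = c := by
        unfold f2
        simp only [coeff_add, coeff_C_mul, coeff_X_pow, coeff_X, coeff_C]
        norm_num
      rw [← h3, ← hkf, coeff_C_mul]
  by_cases hu : IsUnit Δ
  · -- the degrees in `X`
    obtain ⟨m, hm, rfl⟩ := Polynomial.isUnit_iff.1 hu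
    have h1 : (C k * T) ^ 2 - C (β ^ 2) * f2 a b c = C (k * C m) := by
      rw [← hkf, C_mul (a := k), ← hE]
      ring
    have h3 := congrArg (Polynomial.Bivariate.swap (R := M)) h1
    obtain ⟨W, hW⟩ : ∃ W, W = Polynomial.Bivariate.swap (R := M) (C k * T) := ⟨_, rfl⟩
    rw [map_sub, map_pow, ← hW, map_mul (Polynomial.Bivariate.swap (R := M)) (C (β ^ 2)), swap_f2,
      Polynomial.Bivariate.swap_C, Polynomial.Bivariate.swap_C] at h3
    -- degrees
    have hd1 : (fT a b c).natDegree = c.natDegree := by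
      have e1 : (c.map C : M[X][X]).natDegree = c.natDegree :=
        natDegree_map_eq_of_injective C_injective _
      have e2 : (C X * b.map C : M[X][X]).natDegree < (c.map C : M[X][X]).natDegree := by
        rw [e1]
        refine (natDegree_C_mul_le _ _).trans_lt ?_
        rw [natDegree_map_eq_of_injective C_injective]
        exact hbc
      have e3 := natDegree_add_eq_left_of_natDegree_lt e2
      have e4 : (C (X ^ 2) * a.map C : M[X][X]).natDegree <
          (c.map C + C X * b.map C : M[X][X]).natDegree := by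
        rw [e3, e1]
        refine (natDegree_C_mul_le _ _).trans_lt ?_
        rw [natDegree_map_eq_of_injective C_injective]
        exact hac
      unfold fT
      rw [natDegree_add_eq_left_of_natDegree_lt e4, e3, e1]
    have hβC : ((β ^ 2).map C : M[X][X]) ≠ 0 := by
      rw [Ne, Polynomial.map_eq_zero_iff C_injective]
      exact pow_ne_zero 2 hβ
    have hfT0 : fT a b c ≠ 0 := by
      intro h
      rw [h, natDegree_zero] at hd1
      rw [← hd1] at hodd
      exact (by decide : ¬ Odd 0) hodd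
    have hd2 : ((β ^ 2).map C * fT a b c : M[X][X]).natDegree = 2 * β.natDegree + c.natDegree := by
      rw [natDegree_mul hβC hfT0, hd1, natDegree_map_eq_of_injective C_injective, natDegree_pow]
    have hd3 : (W ^ 2).natDegree = 2 * W.natDegree := natDegree_pow _ _
    have hd4 : ((k * C m).map C : M[X][X]).natDegree = k.natDegree := by
      rw [natDegree_map_eq_of_injective C_injective, mul_comm, natDegree_C_mul hm.ne_zero]
    have hkc : k.natDegree + (f.coeff 0).natDegree = c.natDegree := by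
      rw [hco.2, natDegree_mul hk0]
      intro h
      have h5 := hco.2
      rw [h, mul_zero] at h5
      rw [h5, natDegree_zero] at hodd
      exact (by decide : ¬ Odd 0) hodd
    have hka : k.natDegree < c.natDegree := by
      have h5 : k.natDegree ≤ a.natDegree := by
        rw [hco.1, natDegree_mul hk0]
        · omega
        · intro h
          have h6 := hco.1
          rw [h, mul_zero] at h6
          exact ha0 h6
      omega
    rcases lt_trichotomy (W ^ 2).natDegree ((β ^ 2).map C * fT a b c : M[X][X]).natDegree with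
      h | h | h
    · have h5 := natDegree_sub_eq_right_of_natDegree_lt h
      rw [h3, hd4, hd2] at h5
      omega
    · rw [hd3, hd2] at h
      obtain ⟨t, ht⟩ := hodd
      omega
    · have h5 := natDegree_sub_eq_left_of_natDegree_lt h
      rw [h3, hd4] at h5
      rw [← h5, hd2] at h
      omega
  · obtain ⟨δ, hδ, hδΔ⟩ := WfDvdMonoid.exists_irreducible_factor hu hΔ
    obtain ⟨Δ', rfl⟩ := hδΔ
    have hΔ' : Δ' ≠ 0 := right_ne_zero_of_mul hΔ
    have hδ0 : δ ≠ 0 := hδ.ne_zero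
    have hCδ : (C δ : M[X][X]) ≠ 0 := by rwa [Ne, C_eq_zero]
    have hpδ := prime_CC hδ
    have hdeg : Δ'.natDegree < n := by
      rw [natDegree_mul hδ0 hΔ'] at hn
      have := hδ.natDegree_pos
      omega
    have hdv' : ∀ δ' : M[X], Irreducible δ' → δ' ∣ Δ' → C δ' ∣ f2 a b c := fun δ' h1 h2 =>
      hdv δ' h1 (h2.mul_left _)
    have h1 := hdv δ hδ (dvd_mul_right _ _)
    have hnot : ∀ f' : M[X][X], ¬ (C δ ^ 2 ∣ f2 a b c) := fun _ => hsq δ hδ
    rw [← hkf] at h1
    rcases hpδ.dvd_or_dvd h1 with h3 | h3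
    · -- `δ` divides `k`
      have h3' : δ ∣ k := by
        rw [C_dvd_iff_dvd_coeff] at h3
        have := h3 0
        rwa [coeff_C_zero] at this
      obtain ⟨k', rfl⟩ := h3'
      have h4 : C δ ∣ C (β ^ 2) * f := by
        have : C (β ^ 2) * f = C δ * (C k' * T ^ 2 - C Δ') := by
          have h5 := hE
          simp only [C_mul] at h5 ⊢
          linear_combination -h5
        rw [this]
        exact dvd_mul_right _ _
      have h5 : ¬ C δ ∣ f := by
        rintro ⟨f', rfl⟩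
        apply hsq δ hδ
        rw [← hkf]
        refine ⟨C k' * f', ?_⟩
        rw [C_mul]
        ring
      rcases hpδ.dvd_or_dvd h4 with h6 | h6
      · rw [C_pow] at h6
        have h7 := hpδ.dvd_of_dvd_pow h6
        have h8 : δ ∣ β := by
          rw [C_dvd_iff_dvd_coeff] at h7
          have := h7 0
          rwa [coeff_C_zero] at this
        obtain ⟨β', rfl⟩ := h8
        refine ih _ hdeg k' β' Δ' T (C δ * f) hΔ' (right_ne_zero_of_mul hβ) le_rfl ?_ hdv' ?_
        · rw [← hkf, C_mul]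
          ring
        · apply mul_left_cancel₀ hCδ
          simp only [C_mul, C_pow] at hE ⊢
          linear_combination hE
      · exact h5 h6
    · -- `δ` divides `f`
      obtain ⟨f', rfl⟩ := h3
      have h5 : ¬ δ ∣ k := by
        rintro ⟨k', rfl⟩
        apply hsq δ hδ
        rw [← hkf]
        refine ⟨C k' * f', ?_⟩
        rw [C_mul]
        ring
      have h4 : C δ ∣ C k * T ^ 2 := by
        have : C k * T ^ 2 = C δ * (C (β ^ 2) * f' + C Δ') := by
          have h5 := hE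
          simp only [C_mul] at h5 ⊢
          linear_combination h5
        rw [this]
        exact dvd_mul_right _ _
      rcases hpδ.dvd_or_dvd h4 with h6 | h6
      · apply h5
        rw [C_dvd_iff_dvd_coeff] at h6
        have := h6 0
        rwa [coeff_C_zero] at this
      · obtain ⟨T', rfl⟩ := hpδ.dvd_of_dvd_pow h6
        refine ih _ hdeg (k * δ) β Δ' T' f' hΔ' hβ le_rfl ?_ hdv' ?_
        · rw [← hkf, C_mul]
          ring
        · apply mul_left_cancel₀ hCδ
          simp only [C_mul, C_pow] at hE ⊢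
          linear_combination hE

/-- **A split divisor at which the unit has different orders.** -/
theorem exists_split (h2 : (2 : M) ≠ 0) (hω : Transcendental M ω)
    (hL : ∀ z : L, ∃ p q : M[X], aeval ω q ≠ 0 ∧ z * aeval ω q = aeval ω p)
    [IsDedekindDomain (CR (fq a b c ω))] (hodd : Odd c.natDegree) (hac : a.natDegree < c.natDegree)
    (hbc : b.natDegree < c.natDegree) (hsq : Squarefree (fq a b c ω))
    (hα : α ≠ 0) (haα : a = α ^ 2) (hΔ : b ^ 2 - 4 * a * c ≠ 0) :
    ∃ δ r s : M[X], δ.Monic ∧ Irreducible δ ∧ Spl a b c δ r s ∧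
      dw (fq a b c ω) (up δ) (wr ω r s) (Ideal.span {e1 ω a b c α}) ≠ 0 := by
  classical
  have h2L : (2 : L) ≠ 0 := by
    rw [← map_ofNat (algebraMap M L) 2]
    exact fun h => h2 ((map_eq_zero _).1 h)
  have h2X : (2 : M[X]) ≠ 0 := by
    intro h
    apply h2
    have h1 : (C 2 : M[X]) = 0 := by rw [map_ofNat]; exact h
    exact C_eq_zero.1 h1
  have ha0 : a ≠ 0 := by rw [haα]; exact pow_ne_zero 2 hα
  obtain ⟨β, b', κ, hrel, hβ, hb'⟩ := UniqueFactorizationMonoid.exists_reduced_factors (2 * α)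
    (mul_ne_zero h2X hα) b
  have hκ0 : κ ≠ 0 := by
    rintro rfl
    rw [zero_mul] at hβ
    exact mul_ne_zero h2X hα hβ.symm
  have hβ0 : β ≠ 0 := by
    rintro rfl
    rw [mul_zero] at hβ
    exact mul_ne_zero h2X hα hβ.symm
  obtain ⟨T₂, hT₂⟩ : ∃ T₂ : M[X][X], T₂ = C (α * β) * X + C b' := ⟨_, rfl⟩
  obtain ⟨Δ₂, hΔ₂⟩ : ∃ Δ₂, Δ₂ = b' ^ 2 - β ^ 2 * c := ⟨_, rfl⟩
  have hκΔ : κ ^ 2 * Δ₂ = b ^ 2 - 4 * a * c := by
    rw [hΔ₂, haα, ← hb', show (4 : M[X]) * α ^ 2 = (2 * α) ^ 2 by ring, ← hβ]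
    ring
  have hΔ₂0 : Δ₂ ≠ 0 := by
    rintro h
    rw [h, mul_zero] at hκΔ
    exact hΔ hκΔ.symm
  have hE₂ : T₂ ^ 2 - C (β ^ 2) * f2 a b c = C Δ₂ := by
    have e3 : 2 * (α * β) * b' = β ^ 2 * b := by
      rw [← hb', show 2 * (α * β) * b' = (2 * α) * β * b' by ring, ← hβ]
      ring
    have e3' : (2 * (C α * C β) * C b' : M[X][X]) = C β ^ 2 * C b := by
      have := congrArg (C : M[X] → M[X][X]) e3
      simp only [C_mul, C_pow] at this
      exact this
    have e4 : (C a : M[X][X]) = C α ^ 2 := by rw [haα, C_pow]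
    rw [hT₂, hΔ₂]
    unfold f2
    simp only [C_mul, C_sub, C_pow, e4]
    linear_combination X * e3'
  have hT₂e : C κ * T₂ = tt a b := by
    unfold tt
    rw [hT₂, ← hb', haα, show (2 * α ^ 2 : M[X]) = (2 * α) * α by ring, ← hβ]
    simp only [C_mul]
    ring
  have hsq' : ∀ δ : M[X], Irreducible δ → ¬ C δ ^ 2 ∣ f2 a b c := by
    rintro δ hδ ⟨t, ht⟩
    have h3 : fq a b c ω = up δ * up δ * bb ω t := by
      unfold fq
      rw [ht, map_mul, map_pow, bb_C]
      ring
    have h4 := hsq (up δ) ⟨_, h3⟩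
    obtain ⟨u, hu, hue⟩ := Polynomial.isUnit_iff.1 h4
    have h5 : (up δ : L[X]).natDegree = δ.natDegree := by rw [up_def, natDegree_map]
    rw [← hue, natDegree_C] at h5
    have := hδ.natDegree_pos
    omega
  obtain ⟨δ0, hδ0, hδ0Δ, hδ0f⟩ : ∃ δ0 : M[X], Irreducible δ0 ∧ δ0 ∣ Δ₂ ∧ ¬ C δ0 ∣ f2 a b c := by
    by_contra hcon
    push Not at hcon
    refine claim hodd hac hbc ha0 hsq' Δ₂.natDegree 1 β Δ₂ T₂ (f2 a b c) hΔ₂0 hβ0 le_rfl
      (by rw [C_1, one_mul]) hcon ?_
    rw [C_1, one_mul]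
    exact hE₂
  -- a monic divisor
  have hu0 : IsUnit (C δ0.leadingCoeff⁻¹ : M[X]) :=
    isUnit_C.2 (isUnit_iff_ne_zero.2 (inv_ne_zero (leadingCoeff_ne_zero.2 hδ0.ne_zero)))
  obtain ⟨δ, hδe⟩ : ∃ δ, δ = δ0 * C δ0.leadingCoeff⁻¹ := ⟨_, rfl⟩
  have hass : Associated δ0 δ := by
    rw [hδe]
    exact (associated_mul_unit_right δ0 _ hu0)
  have hδm : δ.Monic := by
    rw [hδe]
    exact monic_mul_leadingCoeff_inv hδ0.ne_zero
  have hδi : Irreducible δ := hass.irreducible hδ0
  have hδΔ : δ ∣ Δ₂ := hass.symm.dvd.trans hδ0Δ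
  have hδf : ¬ C δ ∣ f2 a b c := fun h => hδ0f ((_root_.map_dvd C hass.dvd).trans h)
  have hpδ := prime_CC hδi
  have hgi : Irreducible (up δ : L[X]) := irr_up hω hL hδi hδm
  have hδβ : ¬ δ ∣ β := by
    intro h
    have h3 : C δ ∣ T₂ ^ 2 := by
      have : T₂ ^ 2 = C (β ^ 2) * f2 a b c + C Δ₂ := by rw [← hE₂]; ring
      rw [this]
      refine dvd_add ((_root_.map_dvd C (h.trans (dvd_pow_self _ two_ne_zero))).mul_right _)
        (_root_.map_dvd C hδΔ)
    have h4 := hpδ.dvd_of_dvd_pow h3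
    rw [C_dvd_iff_dvd_coeff] at h4
    have h5 := h4 0
    rw [hT₂, coeff_add, coeff_C_zero, mul_coeff_zero, coeff_X_zero, mul_zero, zero_add] at h5
    exact hδi.not_isUnit (hrel h h5)
  have hgβ : ¬ (up δ : L[X]) ∣ up β := by
    rw [← bb_C (ω := ω) β, dvd_bb hω hδm, C_dvd_iff_dvd_coeff]
    intro h
    have := h 0
    rw [coeff_C_zero] at this
    exact hδβ this
  have hgT : (up δ : L[X]) ∣ bb ω T₂ ^ 2 - up β ^ 2 * fq a b c ω := by
    have : bb ω T₂ ^ 2 - up β ^ 2 * fq a b c ω = bb ω (C Δ₂) := by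
      rw [← hE₂, map_sub, map_mul, map_pow, C_pow, map_pow, bb_C]
      rfl
    rw [this, dvd_bb hω hδm]
    exact _root_.map_dvd C hδΔ
  have hgf : ¬ (up δ : L[X]) ∣ fq a b c ω := by
    unfold fq
    rw [dvd_bb hω hδm]
    exact hδf
  have hgT2 : ¬ (up δ : L[X]) ∣ bb ω T₂ := by
    intro h
    have h3 : (up δ : L[X]) ∣ up β ^ 2 * fq a b c ω := by
      have : up β ^ 2 * fq a b c ω = bb ω T₂ ^ 2 - (bb ω T₂ ^ 2 - up β ^ 2 * fq a b c ω) := by ring
      rw [this]
      exact dvd_sub (h.trans (dvd_pow_self _ two_ne_zero)) hgT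
    rcases hgi.prime.dvd_or_dvd h3 with h4 | h4
    · exact hgβ (hgi.prime.dvd_of_dvd_pow h4)
    · exact hgf h4
  -- the square root
  obtain ⟨x, y, hxy⟩ := (hgi.coprime_iff_not_dvd).2 hgβ
  have hd : (up δ : L[X]) ∣ fq a b c ω - (y * bb ω T₂) ^ 2 := by
    have e : fq a b c ω - (y * bb ω T₂) ^ 2 = up δ * (x * (1 + y * up β) * fq a b c ω) -
        y ^ 2 * (bb ω T₂ ^ 2 - up β ^ 2 * fq a b c ω) := by
      have e5 : (x * up δ) = 1 - y * up β := by linear_combination hxy
      have e6 : up δ * (x * (1 + y * up β) * fq a b c ω) = (x * up δ) * (1 + y * up β) * fq a b c ω := by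
        ring
      rw [e6, e5]
      ring
    rw [e]
    exact dvd_sub (dvd_mul_right _ _) (hgT.mul_left _)
  have hnd : ¬ (up δ : L[X]) ∣ y * bb ω T₂ := by
    intro h
    rcases hgi.prime.dvd_or_dvd h with h4 | h4
    · apply hgi.not_isUnit
      have : (up δ : L[X]) ∣ 1 := by
        rw [← hxy]
        exact dvd_add (dvd_mul_left _ _) (h4.mul_right _)
      exact isUnit_of_dvd_one this
    · exact hgT2 h4
  obtain ⟨r, s, hrs⟩ := spl_of_sq hω hL hδm hδi hd hnd
  refine ⟨δ, r, s, hδm, hδi, hrs, ?_⟩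
  obtain ⟨w, hw⟩ : ∃ w, w = wr ω r s := ⟨_, rfl⟩
  have hdw := hrs.dvd hω hδm
  have hndw := hrs.not_dvd hω hδm
  rw [← hw] at hdw hndw ⊢
  -- the primitive multiple of the unit
  obtain ⟨E₂, hE₂d⟩ : ∃ E₂ : CR (fq a b c ω), E₂ = el (-bb ω T₂) (up β) := ⟨_, rfl⟩
  have hE₂0 : E₂ ≠ 0 := by
    rw [hE₂d]
    intro h
    exact up_ne hβ0 (el_eq_zero h).2
  have hppκ : (pp (up κ) : CR (fq a b c ω)) ≠ 0 := fun h =>
    up_ne hκ0 (pp_inj (h.trans (map_zero pp).symm))
  have hEE : e1 ω a b c α = pp (up κ) * E₂ := by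
    unfold e1
    rw [hE₂d, ← hT₂e, ← hβ, ← el_left, el_mul, map_mul, bb_C, bb_C, up_mul]
    congr 1 <;> ring
  rw [hEE, dw_mul hppκ hE₂0, dw_pp h2L hgi hdw hndw _ (up_ne hκ0), zero_add]
  -- the orders
  have hprod : (up δ : L[X]) ∣ (-bb ω T₂ + up β * w) * (-bb ω T₂ + up β * -w) := by
    have : (-bb ω T₂ + up β * w) * (-bb ω T₂ + up β * -w) =
        (bb ω T₂ ^ 2 - up β ^ 2 * fq a b c ω) + up β ^ 2 * (fq a b c ω - w ^ 2) := by ring
    rw [this]
    exact dvd_add hgT (hdw.mul_left _)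
  have hboth : ¬ ((up δ : L[X]) ∣ -bb ω T₂ + up β * w ∧ (up δ : L[X]) ∣ -bb ω T₂ + up β * -w) := by
    rintro ⟨h3, h4⟩
    apply hgT2
    apply two_dvd h2L hgi
    have : 2 * bb ω T₂ = -((-bb ω T₂ + up β * w) + (-bb ω T₂ + up β * -w)) := by ring
    rw [this]
    exact (dvd_neg).2 (dvd_add h3 h4)
  have hs0 : Ideal.span {E₂} ≠ (0 : Ideal (CR (fq a b c ω))) := span_ne hE₂0
  have m1 : Ideal.span {E₂} ≤ pid (fq a b c ω) (up δ) w ↔ (up δ : L[X]) ∣ -bb ω T₂ + up β * w := by
    rw [Ideal.span_singleton_le_iff_mem, hE₂d, el_mem_iff hgi hdw]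
  have m2 : Ideal.span {E₂} ≤ pid (fq a b c ω) (up δ) (-w) ↔
      (up δ : L[X]) ∣ -bb ω T₂ + up β * -w := by
    rw [Ideal.span_singleton_le_iff_mem, hE₂d, el_mem_iff hgi (dvd_neg_w hdw)]
  show dd _ _ _ ≠ 0
  unfold dd
  rcases hgi.prime.dvd_or_dvd hprod with h3 | h3
  · have c1 := count_pos' hs0 (pid_prime hgi hdw) (m1.2 h3)
    have c2 := count_zero hs0 (fun h => hboth ⟨h3, m2.1 h⟩)
    rw [c2]
    omega
  · have c1 := count_pos' hs0 (pid_prime hgi (dvd_neg_w hdw)) (m2.2 h3)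
    have c2 := count_zero hs0 (fun h => hboth ⟨m1.1 h, h3⟩)
    rw [c2]
    omega

end

end Pool.Agent.R410.CB
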