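import Mathlib

/-!
# Saturated subgroups of the class group, and pseudo-division
-/

set_option autoImplicit false
set_option linter.all false

namespace Pool.Agent.R410.CB

open Polynomial

section
variable {R : Type} [CommRing R] [IsDedekindDomain R]

/-- an ideal whose prime divisors have their classes in a subgroup -/
theorem mem_of_primes (H : Subgroup (ClassGroup R)) (J : Ideal R)
    (hJ : J ∈ nonZeroDivisors (Ideal R))
    (h : ∀ (𝔮 : Ideal R) (h0 : 𝔮 ∈ nonZeroDivisors (Ideal R)), 𝔮.IsPrime → J ≤ 𝔮 →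
      ClassGroup.mk0 ⟨𝔮, h0⟩ ∈ H) : ClassGroup.mk0 ⟨J, hJ⟩ ∈ H := by
  induction J using UniqueFactorizationMonoid.induction_on_prime with
  | h₁ => exact absurd rfl (nonZeroDivisors.ne_zero hJ)
  | h₂ x hx =>
    have h1 : x = 1 := by
      rw [Ideal.isUnit_iff] at hx
      rw [hx, Ideal.one_eq_top]
    subst h1
    have h2 : (⟨1, hJ⟩ : nonZeroDivisors (Ideal R)) = 1 := rfl
    rw [h2, map_one]
    exact H.one_mem
  | h₃ a p ha hp ih =>
    have ha' : a ∈ nonZeroDivisors (Ideal R) := mem_nonZeroDivisors_of_ne_zero ha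
    have hp' : p ∈ nonZeroDivisors (Ideal R) := mem_nonZeroDivisors_of_ne_zero hp.ne_zero
    have h2 : (⟨p * a, hJ⟩ : nonZeroDivisors (Ideal R)) = ⟨p, hp'⟩ * ⟨a, ha'⟩ := rfl
    rw [h2, map_mul]
    refine H.mul_mem (h p hp' (Ideal.isPrime_of_prime hp) Ideal.mul_le_left) ?_
    exact ih ha' fun 𝔮 h0 hq hle => h 𝔮 h0 hq (Ideal.mul_le_right.trans hle)

/-- **A prime divisor of a principal ideal** whose other prime divisors have their classes in a
saturated subgroup. -/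
theorem root_mem (H : Subgroup (ClassGroup R)) (hsat : ∀ (c : ClassGroup R) (n : ℕ), n ≠ 0 →
      c ^ n ∈ H → c ∈ H) {x : R} (hx0 : x ≠ 0) {𝔭 : Ideal R} (hp : 𝔭.IsPrime)
    (h𝔭 : 𝔭 ∈ nonZeroDivisors (Ideal R)) (hx : x ∈ 𝔭)
    (hoth : ∀ (𝔮 : Ideal R) (h0 : 𝔮 ∈ nonZeroDivisors (Ideal R)), 𝔮.IsPrime → x ∈ 𝔮 → 𝔮 ≠ 𝔭 →
      ClassGroup.mk0 ⟨𝔮, h0⟩ ∈ H) : ClassGroup.mk0 ⟨𝔭, h𝔭⟩ ∈ H := by
  have hsx : Ideal.span {x} ≠ (⊥ : Ideal R) := by
    rwa [Ne, Ideal.span_singleton_eq_bot]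
  have hp0 : 𝔭 ≠ ⊥ := nonZeroDivisors.ne_zero h𝔭
  have hpr : Prime 𝔭 := Ideal.prime_of_isPrime hp0 hp
  have hfin : FiniteMultiplicity 𝔭 (Ideal.span {x}) :=
    FiniteMultiplicity.of_prime_left hpr hsx
  obtain ⟨J, hJ, hJn⟩ := hfin.exists_eq_pow_mul_and_not_dvd
  set e := multiplicity 𝔭 (Ideal.span {x}) with he
  have he0 : e ≠ 0 := by
    intro h0
    rw [h0, pow_zero, one_mul] at hJ
    apply hJn
    rw [← hJ]
    exact Ideal.dvd_span_singleton.2 hx
  have hJ0 : J ≠ ⊥ := by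
    rintro rfl
    rw [Ideal.mul_bot] at hJ
    exact hsx hJ
  have hJ' : J ∈ nonZeroDivisors (Ideal R) := mem_nonZeroDivisors_of_ne_zero hJ0
  have hxJ : x ∈ J := by
    have h1 : Ideal.span {x} ≤ J := by
      rw [hJ]
      exact Ideal.mul_le_right
    exact h1 (Ideal.mem_span_singleton_self x)
  have h1 : ClassGroup.mk0 ⟨J, hJ'⟩ ∈ H := by
    refine mem_of_primes H J hJ' fun 𝔮 h0 hq hle => ?_
    refine hoth 𝔮 h0 hq (hle hxJ) ?_
    rintro rfl
    exact hJn (Ideal.dvd_iff_le.2 hle)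
  have h2 : ClassGroup.mk0 ⟨𝔭, h𝔭⟩ ^ e * ClassGroup.mk0 ⟨J, hJ'⟩ = 1 := by
    rw [← map_pow, ← map_mul, ClassGroup.mk0_eq_one_iff]
    have h3 : (((⟨𝔭, h𝔭⟩ : nonZeroDivisors (Ideal R)) ^ e * ⟨J, hJ'⟩ :
        nonZeroDivisors (Ideal R)) : Ideal R) = Ideal.span {x} := hJ.symm
    rw [h3]
    exact ⟨⟨x, rfl⟩⟩
  apply hsat _ e he0
  rw [eq_inv_of_mul_eq_one_left h2]
  exact H.inv_mem h1

end

section
variable {A : Type} [CommRing A] [IsDomain A]

/-- pseudo-division -/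
theorem pseudo (π : A[X]) (hN : 0 < π.natDegree) : ∀ (n : ℕ) (P : A[X]), P.natDegree ≤ n →
    ∃ (m : A) (Q S : A[X]), m ≠ 0 ∧ C m * P = π * Q + S ∧ S.natDegree < π.natDegree := by
  have hπ : π ≠ 0 := by
    rintro rfl
    rw [natDegree_zero] at hN
    exact lt_irrefl _ hN
  intro n
  induction n with
  | zero =>
    intro P hP
    exact ⟨1, 0, P, one_ne_zero, by rw [C_1]; ring, by omega⟩
  | succ n ih =>
    intro P hP
    by_cases hlt : P.natDegree < π.natDegree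
    · exact ⟨1, 0, P, one_ne_zero, by rw [C_1]; ring, hlt⟩
    push Not at hlt
    set c := π.leadingCoeff with hc
    have hc0 : c ≠ 0 := leadingCoeff_ne_zero.2 hπ
    have hP0 : 0 < P.natDegree := lt_of_lt_of_le hN hlt
    have hPne : P ≠ 0 := by
      rintro rfl
      rw [natDegree_zero] at hP0
      exact lt_irrefl _ hP0
    let T : A[X] := C P.leadingCoeff * X ^ (P.natDegree - π.natDegree)
    have hd1 : (C c * P).degree = (π * T).degree := by
      rw [degree_C_mul hc0, degree_mul, degree_C_mul (leadingCoeff_ne_zero.2 hPne), degree_X_pow,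
        degree_eq_natDegree hPne, degree_eq_natDegree hπ, ← Nat.cast_add]
      congr 1
      omega
    have hl1 : (C c * P).leadingCoeff = (π * T).leadingCoeff := by
      rw [leadingCoeff_mul, leadingCoeff_C, leadingCoeff_mul, leadingCoeff_mul, leadingCoeff_C,
        leadingCoeff_X_pow, mul_one]
    have hne : C c * P ≠ 0 := mul_ne_zero (C_ne_zero.2 hc0) hPne
    have hlt2 : (C c * P - π * T).degree < (C c * P).degree := degree_sub_lt hd1 hne hl1
    have hdeg : (C c * P - π * T).natDegree ≤ n := by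
      rw [degree_C_mul hc0] at hlt2
      by_cases h0 : C c * P - π * T = 0
      · rw [h0, natDegree_zero]
        exact Nat.zero_le _
      · have := natDegree_lt_natDegree h0 hlt2
        omega
    obtain ⟨m, Q, S, hm, h1, h2⟩ := ih _ hdeg
    refine ⟨m * c, Q + C m * T, S, mul_ne_zero hm hc0, ?_, h2⟩
    rw [C_mul]
    linear_combination h1

theorem pseudo' {π : A[X]} (hN : 0 < π.natDegree) (P : A[X]) :
    ∃ (m : A) (Q S : A[X]), m ≠ 0 ∧ C m * P = π * Q + S ∧ S.natDegree < π.natDegree :=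
  pseudo π hN _ P le_rfl

end

end Pool.Agent.R410.CB
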