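import Pool.Agent.R410.CB.Dif

/-!
# The norm equation over the field of rational functions
-/

set_option autoImplicit false
set_option linter.all false
set_option maxHeartbeats 1000000

namespace Pool.Agent.R410.CB

open Polynomial Pool.Agent.TH943.HJ Pool.Agent.Y707.PC
open Pool.Agent.Y707.DK (irr_up prime_over)

section
variable {M L : Type} [Field M] [Field L] [Algebra M L] {ω : L} {a b c : M[X]}

/-- the polynomial `a v² + b v + c`, as a polynomial in `X` -/
noncomputable def fT (a b c : M[X]) : M[X][X] := c.map C + C X * b.map C + C (X ^ 2) * a.map C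

theorem swap_f2 : Polynomial.Bivariate.swap (R := M) (f2 a b c) = fT a b c := by
  unfold f2 fT
  rw [map_add, map_add, map_mul, map_mul, map_pow, Polynomial.Bivariate.swap_C,
    Polynomial.Bivariate.swap_C, Polynomial.Bivariate.swap_C, Polynomial.Bivariate.swap_Y, C_pow]
  ring

/-- the degree in `X` -/
theorem deg_lin {E : Type} [Field E] [Algebra M E] (θ : E) (ha : a.natDegree < c.natDegree)
    (hb : b.natDegree < c.natDegree) :
    (up c + C θ * up b + C (θ ^ 2) * up a : E[X]).natDegree = c.natDegree := by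
  have h1 : (up c : E[X]).natDegree = c.natDegree := by rw [up_def, natDegree_map]
  have h2 : (C θ * up b : E[X]).natDegree < (up c : E[X]).natDegree := by
    rw [h1]
    refine (natDegree_C_mul_le _ _).trans_lt ?_
    rw [up_def, natDegree_map]
    exact hb
  have h3 := natDegree_add_eq_left_of_natDegree_lt h2
  have h4 : (C (θ ^ 2) * up a : E[X]).natDegree < (up c + C θ * up b : E[X]).natDegree := by
    rw [h3, h1]
    refine (natDegree_C_mul_le _ _).trans_lt ?_
    rw [up_def, natDegree_map]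
    exact ha
  rw [natDegree_add_eq_left_of_natDegree_lt h4, h3, h1]

theorem deg_fq (ha : a.natDegree < c.natDegree) (hb : b.natDegree < c.natDegree) :
    (fq a b c ω).natDegree = c.natDegree := by
  rw [fq_eq]
  exact deg_lin ω ha hb

/-- the descent -/
theorem rel_step (hodd : Odd c.natDegree) (ha : a.natDegree < c.natDegree)
    (hb : b.natDegree < c.natDegree) {G : M[X]} (hG0 : G ≠ 0) :
    ∀ (n : ℕ) (κ : M[X]) (W V : M[X][X]), κ ≠ 0 → κ.natDegree ≤ n →
      W ^ 2 - fT a b c * V ^ 2 = C κ * G.map C →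
      ∃ (e : M[X]) (W' V' : M[X][X]) (m : M), e ≠ 0 ∧ m ≠ 0 ∧ W = C e * W' ∧ V = C e * V' ∧
        W' ^ 2 - fT a b c * V' ^ 2 = C (C m) * G.map C := by
  intro n
  induction n with
  | zero =>
    intro κ W V hc hn hE
    rw [eq_C_of_natDegree_le_zero hn] at hE hc
    rw [Ne, C_eq_zero] at hc
    exact ⟨1, W, V, _, one_ne_zero, hc, by rw [C_1, one_mul], by rw [C_1, one_mul], hE⟩
  | succ n ih =>
    intro κ W V hc hn hE
    by_cases hu : IsUnit κ
    · obtain ⟨m, hm, rfl⟩ := Polynomial.isUnit_iff.1 hu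
      exact ⟨1, W, V, m, one_ne_zero, hm.ne_zero, by rw [C_1, one_mul], by rw [C_1, one_mul], hE⟩
    obtain ⟨P, hP, hPc⟩ := WfDvdMonoid.exists_irreducible_factor hu hc
    have hfact : Fact (Irreducible P) := ⟨hP⟩
    -- reduction modulo `P`
    let ψ : M[X][X] →+* (AdjoinRoot P)[X] := mapRingHom (AdjoinRoot.mk P)
    have hψc : ψ (C κ) = 0 := by
      show (C κ : M[X][X]).map (AdjoinRoot.mk P) = 0
      rw [Polynomial.map_C, AdjoinRoot.mk_eq_zero.2 hPc, C_0]
    have hψC : ∀ p : M[X], ψ (p.map C) = up p := by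
      intro p
      show (p.map C).map _ = _
      rw [Polynomial.map_map]
      rfl
    have hψf : ψ (fT a b c) = up c + C (AdjoinRoot.root P) * up b + C (AdjoinRoot.root P ^ 2) * up a := by
      unfold fT
      rw [map_add, map_add, map_mul, map_mul, hψC, hψC, hψC]
      congr 2
      · congr 1
        show (C X).map _ = _
        rw [Polynomial.map_C, AdjoinRoot.mk_X]
      · show (C (X ^ 2)).map _ = _
        rw [Polynomial.map_C, map_pow, AdjoinRoot.mk_X]
    have hdegs : Odd (up c + C (AdjoinRoot.root P) * up b + C (AdjoinRoot.root P ^ 2) * up a :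
        (AdjoinRoot P)[X]).natDegree := by
      rw [deg_lin _ ha hb]
      exact hodd
    have h1 := congrArg ψ hE
    rw [map_sub, map_pow, map_mul, map_pow, map_mul, hψc, zero_mul, hψf] at h1
    obtain ⟨h2', h3⟩ := norm_ne hdegs h1
    have hdiv : ∀ Z : M[X][X], ψ Z = 0 → ∃ Z', Z = C P * Z' := by
      intro Z hZ
      have : C P ∣ Z := by
        rw [C_dvd_iff_dvd_coeff]
        intro i
        have h4 := congrArg (fun q => coeff q i) hZ
        have h5 : coeff (ψ Z) i = AdjoinRoot.mk P (Z.coeff i) := coeff_map _ _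
        simp only [coeff_zero] at h4
        rw [h5, AdjoinRoot.mk_eq_zero] at h4
        exact h4
      obtain ⟨Z', hZ'⟩ := this
      exact ⟨Z', hZ'⟩
    obtain ⟨W', rfl⟩ := hdiv W h2'
    obtain ⟨V', rfl⟩ := hdiv V h3
    -- `P ^ 2` divides `κ`
    have hE2 : C (P ^ 2) * (W' ^ 2 - fT a b c * V' ^ 2) = C κ * G.map C := by
      rw [← hE, C_pow]
      ring
    have hPc2 : P ^ 2 ∣ κ := by
      obtain ⟨j, hj⟩ : ∃ j, G.coeff j ≠ 0 := by
        by_contra hcon
        push Not at hcon
        exact hG0 (Polynomial.ext fun j => by rw [hcon j, coeff_zero])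
      have h4 := congrArg (fun q => coeff q j) hE2
      simp only [coeff_C_mul, coeff_map] at h4
      have h5 : P ^ 2 ∣ κ * C (G.coeff j) := ⟨_, h4.symm⟩
      exact (IsUnit.dvd_mul_right (isUnit_C.2 (isUnit_iff_ne_zero.2 hj))).1 h5
    obtain ⟨κ', rfl⟩ := hPc2
    have hP0 : P ≠ 0 := hP.ne_zero
    have hc' : κ' ≠ 0 := right_ne_zero_of_mul hc
    have hE3 : W' ^ 2 - fT a b c * V' ^ 2 = C κ' * G.map C := by
      have h6 : (C (P ^ 2) : M[X][X]) ≠ 0 := by
        rw [Ne, C_eq_zero]
        exact pow_ne_zero 2 hP0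
      apply mul_left_cancel₀ h6
      rw [hE2, C_mul]
      ring
    have hdeg : κ'.natDegree ≤ n := by
      rw [natDegree_mul (pow_ne_zero 2 hP0) hc', natDegree_pow] at hn
      have : 0 < P.natDegree := hP.natDegree_pos
      omega
    obtain ⟨e, W1, V1, m, he, hm, e1, e2, e3⟩ := ih κ' W' V' hc' hdeg hE3
    exact ⟨P * e, W1, V1, m, mul_ne_zero hP0 he, hm, by rw [e1, C_mul]; ring,
      by rw [e2, C_mul]; ring, e3⟩

/-- **The norm equation.** -/
theorem descent (hω : Transcendental M ω)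
    (hL : ∀ z : L, ∃ p q : M[X], aeval ω q ≠ 0 ∧ z * aeval ω q = aeval ω p)
    (hodd : Odd c.natDegree) (ha : a.natDegree < c.natDegree) (hb : b.natDegree < c.natDegree)
    {G : M[X]} (hG : G ≠ 0) {W V : L[X]} {d : L} (hd : d ≠ 0)
    (hE : W ^ 2 - fq a b c ω * V ^ 2 = C d * up G) :
    ∃ (u : L) (P Q : M[X][X]) (m : M), u ≠ 0 ∧ m ≠ 0 ∧ bb ω P = C u * W ∧ bb ω Q = C u * V ∧
      P ^ 2 - f2 a b c * Q ^ 2 = C (C m * G) := by
  obtain ⟨D1, W', h1, h2'⟩ := clear hω hL W
  obtain ⟨D', V', h3, h4⟩ := clear hω hL V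
  obtain ⟨p, q, hq, hz⟩ := hL d
  have ev_f : ev ω (fT a b c) = fq a b c ω := by
    unfold fq
    rw [bb_apply, swap_f2]
  have hq0 : q ≠ 0 := fun h0 => hq (by rw [h0, map_zero])
  have hp0 : p ≠ 0 := by
    intro h0
    rw [h0, map_zero] at hz
    rcases mul_eq_zero.1 hz with h | h
    · exact hd h
    · exact hq h
  have e1 : ev ω W' = C (aeval ω D1) * W := h2'
  have e2 : ev ω V' = C (aeval ω D') * V := h4
  have key : (C (q * D') * W') ^ 2 - fT a b c * (C (q * D1) * V') ^ 2 =
      C (q * p * D1 ^ 2 * D' ^ 2) * G.map C := by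
    apply ev_inj hω
    simp only [map_sub, map_mul, map_pow, ev_C, ev_f, ev_map_C, e1, e2]
    have e3 : (C (aeval ω p) : L[X]) = C d * C (aeval ω q) := by rw [← hz, C_mul]
    rw [e3]
    linear_combination (C (aeval ω q) ^ 2 * C (aeval ω D1) ^ 2 * C (aeval ω D') ^ 2) * hE
  have hcne : q * p * D1 ^ 2 * D' ^ 2 ≠ 0 :=
    mul_ne_zero (mul_ne_zero (mul_ne_zero hq0 hp0) (pow_ne_zero 2 h1)) (pow_ne_zero 2 h3)
  obtain ⟨e, W1, V1, m, he, hm, k1, k2, k3⟩ := rel_step hodd ha hb hG _ _ _ _ hcne le_rfl key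
  have hae : aeval ω e ≠ 0 := aeval_ne hω he
  obtain ⟨u, hu⟩ : ∃ u, u = aeval ω (q * D' * D1) * (aeval ω e)⁻¹ := ⟨_, rfl⟩
  have hu0 : u ≠ 0 := by
    rw [hu]
    exact mul_ne_zero (aeval_ne hω (mul_ne_zero (mul_ne_zero hq0 h3) h1)) (inv_ne_zero hae)
  have hue : u * aeval ω e = aeval ω (q * D' * D1) := by
    rw [hu, inv_mul_cancel_right₀ hae]
  have hCe : (C (aeval ω e) : L[X]) ≠ 0 := by
    rw [Ne, C_eq_zero]
    exact hae
  refine ⟨u, (Polynomial.Bivariate.swap (R := M)).symm W1,
    (Polynomial.Bivariate.swap (R := M)).symm V1, m, hu0, hm, ?_, ?_, ?_⟩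
  · rw [bb_apply, AlgEquiv.apply_symm_apply]
    apply mul_left_cancel₀ hCe
    have h5 := congrArg (ev ω) k1
    rw [map_mul (ev ω), map_mul (ev ω), ev_C, ev_C, e1] at h5
    rw [← h5, show C (aeval ω e) * (C u * W) = C (u * aeval ω e) * W by rw [C_mul]; ring, hue]
    simp only [map_mul, C_mul]
    ring
  · rw [bb_apply, AlgEquiv.apply_symm_apply]
    apply mul_left_cancel₀ hCe
    have h5 := congrArg (ev ω) k2
    rw [map_mul (ev ω), map_mul (ev ω), ev_C, ev_C, e2] at h5
    rw [← h5, show C (aeval ω e) * (C u * V) = C (u * aeval ω e) * V by rw [C_mul]; ring, hue]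
    simp only [map_mul, C_mul]
    ring
  · apply (Polynomial.Bivariate.swap (R := M)).injective
    rw [map_sub, map_pow, map_mul, map_pow, AlgEquiv.apply_symm_apply, AlgEquiv.apply_symm_apply,
      swap_f2, k3, Polynomial.Bivariate.swap_C, Polynomial.map_mul, Polynomial.map_C]

end

section
variable {A : Type} [CommRing A] [IsDomain A] {a b c : A}

theorem f2_natDegree (ha : a ≠ 0) : (f2 a b c).natDegree = 2 := by
  have : f2 a b c = C a * X ^ 2 + C b * X + C c := by unfold f2; ring
  rw [this]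
  exact natDegree_quadratic ha

theorem f2_leading (ha : a ≠ 0) : (f2 a b c).leadingCoeff = a := by
  have : f2 a b c = C a * X ^ 2 + C b * X + C c := by unfold f2; ring
  rw [this]
  exact leadingCoeff_quadratic ha

/-- the leading coefficients in the norm equation -/
theorem top_step (hΔ : b ^ 2 - 4 * a * c ≠ 0) {P Q : A[X]} {γ : A}
    (hE : P ^ 2 - f2 a b c * Q ^ 2 = C γ) (hQ : Q ≠ 0) :
    a ≠ 0 ∧ P.natDegree = Q.natDegree + 1 ∧ P.leadingCoeff ^ 2 = a * Q.leadingCoeff ^ 2 := by
  have hPe : P ^ 2 = f2 a b c * Q ^ 2 + C γ := by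
    rw [← hE]
    ring
  have hQ2 : Q ^ 2 ≠ 0 := pow_ne_zero 2 hQ
  by_cases ha : a = 0
  · exfalso
    subst ha
    have hb : b ≠ 0 := by
      rintro rfl
      apply hΔ
      ring
    have hf : f2 0 b c = C b * X + C c := by
      unfold f2
      rw [C_0]
      ring
    have hf0 : f2 0 b c ≠ 0 := by
      rw [hf]
      intro h0
      have := natDegree_linear (a := b) (b := c) hb
      rw [h0, natDegree_zero] at this
      exact zero_ne_one this
    have d1 : (f2 0 b c * Q ^ 2).natDegree = 1 + 2 * Q.natDegree := by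
      rw [natDegree_mul hf0 hQ2, natDegree_pow, hf, natDegree_linear hb]
    have d2 : (f2 0 b c * Q ^ 2 + C γ).natDegree = 1 + 2 * Q.natDegree := by
      rw [natDegree_add_C, d1]
    rw [← hPe, natDegree_pow] at d2
    omega
  · have hf0 : f2 a b c ≠ 0 := by
      intro h0
      have := f2_natDegree (a := a) (b := b) (c := c) ha
      rw [h0, natDegree_zero] at this
      omega
    have d1 : (f2 a b c * Q ^ 2).natDegree = 2 + 2 * Q.natDegree := by
      rw [natDegree_mul hf0 hQ2, natDegree_pow, f2_natDegree ha]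
    have d2 : (f2 a b c * Q ^ 2 + C γ).natDegree = 2 + 2 * Q.natDegree := by
      rw [natDegree_add_C, d1]
    have d3 : P.natDegree = Q.natDegree + 1 := by
      rw [← hPe, natDegree_pow] at d2
      omega
    refine ⟨ha, d3, ?_⟩
    have l1 : (f2 a b c * Q ^ 2 + C γ).leadingCoeff = (f2 a b c * Q ^ 2).leadingCoeff := by
      apply leadingCoeff_add_of_degree_lt'
      refine degree_C_le.trans_lt ?_
      rw [degree_eq_natDegree (mul_ne_zero hf0 hQ2), d1]
      exact_mod_cast (by omega : 0 < 2 + 2 * Q.natDegree)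
    rw [← leadingCoeff_pow, hPe, l1, leadingCoeff_mul, leadingCoeff_pow, f2_leading ha]

end

end Pool.Agent.R410.CB
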