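import Pool.Agent.R410.CB.Ver

/-!
# The difference of the orders at the two primes over a split divisor
-/

set_option autoImplicit false
set_option linter.all false
set_option maxHeartbeats 1000000

namespace Pool.Agent.R410.CB

open Polynomial Pool.Agent.TH943.HJ Pool.Agent.Y707.PC
open Pool.Agent.Y707.DK (irr_up prime_over)
open UniqueFactorizationMonoid

section
variable {R : Type} [CommRing R] [IsDedekindDomain R]

open Classical in
/-- the difference of the orders -/
noncomputable def dd (P P' I : Ideal R) : ℤ :=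
  ((normalizedFactors I).count P : ℤ) - ((normalizedFactors I).count P' : ℤ)

variable {P P' : Ideal R}

theorem dd_mul {I J : Ideal R} (hI : I ≠ 0) (hJ : J ≠ 0) : dd P P' (I * J) = dd P P' I + dd P P' J := by
  classical
  unfold dd
  rw [normalizedFactors_mul hI hJ, Multiset.count_add, Multiset.count_add]
  push_cast
  ring

theorem dd_one : dd P P' 1 = 0 := by
  classical
  unfold dd
  rw [normalizedFactors_one]
  simp

theorem dd_pow {I : Ideal R} (hI : I ≠ 0) (n : ℕ) : dd P P' (I ^ n) = n * dd P P' I := by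
  induction n with
  | zero => rw [pow_zero, dd_one]; simp
  | succ n ih =>
    rw [pow_succ, dd_mul (pow_ne_zero n hI) hI, ih]
    push_cast
    ring

theorem dd_prod {ι : Type} (s : Finset ι) (I : ι → Ideal R) (hI : ∀ i, I i ≠ 0) :
    dd P P' (∏ i ∈ s, I i) = ∑ i ∈ s, dd P P' (I i) := by
  classical
  induction s using Finset.induction_on with
  | empty => rw [Finset.prod_empty, Finset.sum_empty, dd_one]
  | insert a s ha ih =>
    rw [Finset.prod_insert ha, Finset.sum_insert ha, dd_mul (hI a)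
      (Finset.prod_ne_zero_iff.2 fun i _ => hI i), ih]

open Classical in
theorem count_zero {Q I : Ideal R} (hI : I ≠ 0) (h : ¬ I ≤ Q) : (normalizedFactors I).count Q = 0 := by
  rw [Multiset.count_eq_zero]
  intro h1
  rw [Ideal.mem_normalizedFactors_iff hI] at h1
  exact h h1.2

open Classical in
theorem count_pos' {Q I : Ideal R} (hI : I ≠ 0) (hQ : Q.IsPrime) (h : I ≤ Q) :
    0 < (normalizedFactors I).count Q := by
  rw [Multiset.count_pos, Ideal.mem_normalizedFactors_iff hI]
  exact ⟨hQ, h⟩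

open Classical in
theorem nf_prime {Q : Ideal R} (hQ : Q.IsPrime) (h0 : Q ≠ 0) : normalizedFactors Q = {Q} := by
  rw [normalizedFactors_irreducible (Ideal.prime_of_isPrime h0 hQ).irreducible, normalize_eq]

theorem dd_left (hP : P.IsPrime) (h0 : P ≠ 0) (hne : P ≠ P') : dd P P' P = 1 := by
  classical
  unfold dd
  rw [nf_prime hP h0, Multiset.count_singleton_self, Multiset.count_singleton, if_neg hne.symm]
  simp

theorem dd_right (hP : P'.IsPrime) (h0 : P' ≠ 0) (hne : P ≠ P') : dd P P' P' = -1 := by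
  classical
  unfold dd
  rw [nf_prime hP h0, Multiset.count_singleton_self, Multiset.count_singleton, if_neg hne]
  simp

theorem dd_other {Q : Ideal R} (hQ : Q.IsPrime) (h0 : Q ≠ 0) (h1 : Q ≠ P) (h2 : Q ≠ P') :
    dd P P' Q = 0 := by
  classical
  unfold dd
  rw [nf_prime hQ h0, Multiset.count_singleton, Multiset.count_singleton, if_neg h1.symm,
    if_neg h2.symm]
  simp

end

section
variable {L : Type} [Field L] {F g w : L[X]}

/-- the value at the divisor -/
noncomputable def lam (hd : g ∣ F - w ^ 2) : CR F →+* AdjoinRoot g :=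
  AdjoinRoot.lift (AdjoinRoot.mk g) (AdjoinRoot.mk g w) (by
    rw [eval₂_sub, eval₂_pow, eval₂_X, eval₂_C, ← map_pow, ← map_sub, AdjoinRoot.mk_eq_zero]
    rw [← neg_sub]
    exact (dvd_neg).2 hd)

theorem lam_pp (hd : g ∣ F - w ^ 2) (p : L[X]) : lam hd (pp p) = AdjoinRoot.mk g p :=
  AdjoinRoot.lift_of _

theorem lam_yy (hd : g ∣ F - w ^ 2) : lam hd (yy F) = AdjoinRoot.mk g w := AdjoinRoot.lift_root _

theorem pid_ker (hg : Irreducible g) (hd : g ∣ F - w ^ 2) [IsDedekindDomain (CR F)] :
    RingHom.ker (lam hd) = pid F g w := by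
  have : Fact (Irreducible g) := ⟨hg⟩
  refine prime_over hg (RingHom.ker_isPrime _) ?_ ?_
  · rw [RingHom.mem_ker, lam_pp, AdjoinRoot.mk_self]
  · rw [RingHom.mem_ker, map_sub, lam_pp, lam_yy, sub_self]

theorem pid_prime (hg : Irreducible g) (hd : g ∣ F - w ^ 2) [IsDedekindDomain (CR F)] :
    (pid F g w).IsPrime := by
  have : Fact (Irreducible g) := ⟨hg⟩
  rw [← pid_ker hg hd]
  exact RingHom.ker_isPrime _

theorem pp_mem_iff (hg : Irreducible g) (hd : g ∣ F - w ^ 2) [IsDedekindDomain (CR F)] (x : L[X]) :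
    (pp x : CR F) ∈ pid F g w ↔ g ∣ x := by
  rw [← pid_ker hg hd, RingHom.mem_ker, lam_pp, AdjoinRoot.mk_eq_zero]

theorem el_mem_iff (hg : Irreducible g) (hd : g ∣ F - w ^ 2) [IsDedekindDomain (CR F)] (p q : L[X]) :
    (el p q : CR F) ∈ pid F g w ↔ g ∣ p + q * w := by
  rw [← pid_ker hg hd, RingHom.mem_ker]
  unfold el
  rw [map_add, map_mul, lam_pp, lam_pp, lam_yy, ← map_mul, ← map_add, AdjoinRoot.mk_eq_zero]

theorem dvd_neg_w (hd : g ∣ F - w ^ 2) : g ∣ F - (-w) ^ 2 := by rwa [neg_sq]

theorem two_dvd (h2 : (2 : L) ≠ 0) (hg : Irreducible g) {x : L[X]} (h : g ∣ 2 * x) : g ∣ x := by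
  rcases hg.prime.dvd_or_dvd h with h1 | h1
  · exact absurd (isUnit_of_dvd_unit h1 (isUnit_two h2)) hg.not_isUnit
  · exact h1

theorem pid_ne_neg (h2 : (2 : L) ≠ 0) (hg : Irreducible g) (hd : g ∣ F - w ^ 2) (hw : ¬ g ∣ w)
    [IsDedekindDomain (CR F)] : pid F g w ≠ pid F g (-w) := by
  intro h
  have h1 : yy F - pp w ∈ pid F g (-w) := by
    rw [← h]
    exact yy_mem_pid _ _
  have h3 : yy F - pp w = el (-w) 1 := by
    unfold el
    rw [map_neg, map_one, one_mul]
    ring
  rw [h3, el_mem_iff hg (dvd_neg_w hd)] at h1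
  apply hw
  apply two_dvd h2 hg
  have : -w + 1 * -w = -(2 * w) := by ring
  rw [this] at h1
  exact (dvd_neg).1 h1

/-- the difference for the two primes over a split divisor -/
noncomputable abbrev dw (F g w : L[X]) [IsDedekindDomain (CR F)] (I : Ideal (CR F)) : ℤ :=
  dd (pid F g w) (pid F g (-w)) I

theorem span_ne {z : CR F} (hz : z ≠ 0) : Ideal.span {z} ≠ (0 : Ideal (CR F)) := by
  rwa [Ne, Ideal.zero_eq_bot, Ideal.span_singleton_eq_bot]

/-- functions of `X` -/
theorem dw_pp (h2 : (2 : L) ≠ 0) (hg : Irreducible g) (hd : g ∣ F - w ^ 2) (hw : ¬ g ∣ w)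
    [IsDedekindDomain (CR F)] (h : L[X]) (h0 : h ≠ 0) : dw F g w (Ideal.span {pp h}) = 0 := by
  classical
  have hcop : IsCoprime g w := (hg.coprime_iff_not_dvd).2 hw
  have hP := pid_prime hg hd
  have hP' := pid_prime hg (dvd_neg_w hd)
  have hne := pid_ne_neg h2 hg hd hw
  have hP0 : pid F g w ≠ 0 := pid_ne hg.ne_zero w
  have hP0' : pid F g (-w) ≠ 0 := pid_ne hg.ne_zero (-w)
  induction h using UniqueFactorizationMonoid.induction_on_prime with
  | h₁ => exact absurd rfl h0
  | h₂ x hx =>
    have : Ideal.span {(pp x : CR F)} = 1 := by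
      rw [Ideal.one_eq_top, Ideal.span_singleton_eq_top]
      exact hx.map _
    rw [this]
    exact dd_one
  | h₃ a q ha hq ih =>
    have e : Ideal.span {(pp (q * a) : CR F)} = Ideal.span {pp q} * Ideal.span {pp a} := by
      rw [Ideal.span_singleton_mul_span_singleton, map_mul]
    have hq0 : (pp q : CR F) ≠ 0 := fun h => hq.ne_zero (pp_inj (h.trans (map_zero pp).symm))
    have ha0 : (pp a : CR F) ≠ 0 := fun h => ha (pp_inj (h.trans (map_zero pp).symm))
    show dd _ _ _ = 0
    rw [e, dd_mul (span_ne hq0) (span_ne ha0)]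
    have ih' : dd (pid F g w) (pid F g (-w)) (Ideal.span {pp a}) = 0 := ih ha
    rw [ih', add_zero]
    by_cases hgq : g ∣ q
    · have hass : Associated g q := hg.associated_of_dvd hq.irreducible hgq
      have e2 : Ideal.span {(pp q : CR F)} = pid F g w * pid F g (-w) := by
        rw [pid_mul h2 hd hcop, Ideal.span_singleton_eq_span_singleton]
        exact (hass.map pp).symm
      rw [e2, dd_mul hP0 hP0', dd_left hP hP0 hne, dd_right hP' hP0' hne]
      ring
    · have e2 : ¬ Ideal.span {(pp q : CR F)} ≤ pid F g w := by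
        rw [Ideal.span_singleton_le_iff_mem, pp_mem_iff hg hd]
        exact hgq
      have e3 : ¬ Ideal.span {(pp q : CR F)} ≤ pid F g (-w) := by
        rw [Ideal.span_singleton_le_iff_mem, pp_mem_iff hg (dvd_neg_w hd)]
        exact hgq
      unfold dd
      rw [count_zero (span_ne hq0) e2, count_zero (span_ne hq0) e3]
      simp

theorem dw_mul [IsDedekindDomain (CR F)] {x y : CR F} (hx : x ≠ 0) (hy : y ≠ 0) :
    dw F g w (Ideal.span {x * y}) = dw F g w (Ideal.span {x}) + dw F g w (Ideal.span {y}) := by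
  rw [← Ideal.span_singleton_mul_span_singleton]
  exact dd_mul (span_ne hx) (span_ne hy)

end

end Pool.Agent.R410.CB
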