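import Pool.Agent.R410.CB.Dd

/-!
# The class group of a conic bundle is generated by the vertical classes, up to torsion
-/

set_option autoImplicit false
set_option linter.all false

namespace Pool.Agent.R410.CB

open Polynomial

/-- the polynomial `a v² + b v + c` -/
noncomputable def f2 {A : Type} [CommRing A] (a b c : A) : A[X] := C c + C b * X + C a * X ^ 2

/-- The ring of functions on the generic fibre of a conic bundle: fractions of `θ P + θ Q y`. -/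
structure Cfg (A R : Type) [CommRing A] [IsDomain A] [CommRing R] (θ : A[X] →+* R) (y : R)
    (a b c : A) : Prop where
  sq : y ^ 2 = θ (f2 a b c)
  den : ∀ z : R, ∃ (u : R) (P Q : A[X]), IsUnit u ∧ u * z = θ P + θ Q * y
  ind : ∀ P Q : A[X], θ P + θ Q * y = 0 → P = 0 ∧ Q = 0
  two : (2 : A) ≠ 0
  disc : b ^ 2 - 4 * a * c ≠ 0

section
variable {A R : Type} [CommRing A] [IsDomain A] [CommRing R] [IsDedekindDomain R] {θ : A[X] →+* R}
  {y : R} {a b c : A}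

/-- the prime contains a polynomial of small degree -/
def Low (θ : A[X] →+* R) (𝔭 : Ideal R) (n : ℕ) : Prop :=
  ∃ π : A[X], π ≠ 0 ∧ π.natDegree < n ∧ θ π ∈ 𝔭

theorem Low.mono {𝔭 : Ideal R} {m n : ℕ} (h : Low θ 𝔭 m) (hmn : m ≤ n) : Low θ 𝔭 n := by
  obtain ⟨π, h1, h2, h3⟩ := h
  exact ⟨π, h1, by omega, h3⟩

theorem zero_of_low {𝔭 : Ideal R} {n : ℕ} (h : ¬ Low θ 𝔭 n) {S : A[X]} (hS : S.natDegree < n)
    (hm : θ S ∈ 𝔭) : S = 0 := by
  by_contra h0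
  exact h ⟨S, h0, hS, hm⟩

theorem cancel_C {𝔭 : Ideal R} (hp : 𝔭.IsPrime) {n : ℕ} (hn : 1 ≤ n) (h : ¬ Low θ 𝔭 n) {m : A}
    (hm : m ≠ 0) {z : R} (hz : θ (C m) * z ∈ 𝔭) : z ∈ 𝔭 := by
  rcases hp.mem_or_mem hz with h1 | h1
  · exfalso
    apply h
    exact ⟨C m, C_ne_zero.2 hm, by rw [natDegree_C]; omega, h1⟩
  · exact h1

theorem cancel_unit {𝔭 : Ideal R} {u z : R} (hu : IsUnit u) (hz : u * z ∈ 𝔭) : z ∈ 𝔭 := by
  obtain ⟨w, rfl⟩ := hu
  have := 𝔭.mul_mem_left (↑w⁻¹ : R) hz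
  rwa [Units.inv_mul_cancel_left] at this

/-- elements of the prime are divisible by the polynomial of the smallest degree -/
theorem rem_zero {𝔭 : Ideal R} {π : A[X]} (hN : 0 < π.natDegree) (hπ : θ π ∈ 𝔭)
    (h : ¬ Low θ 𝔭 π.natDegree) {P : A[X]} (hP : θ P ∈ 𝔭) :
    ∃ (m : A) (Q : A[X]), m ≠ 0 ∧ C m * P = π * Q := by
  obtain ⟨m, Q, S, hm, h1, h2⟩ := pseudo' hN P
  have h3 : θ S ∈ 𝔭 := by
    have e : θ S = θ (C m) * θ P - θ π * θ Q := by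
      rw [← map_mul, ← map_mul, ← map_sub, h1]
      congr 1
      ring
    rw [e]
    exact 𝔭.sub_mem (𝔭.mul_mem_left _ hP) (𝔭.mul_mem_right _ hπ)
  have h4 := zero_of_low h h2 h3
  rw [h4, add_zero] at h1
  exact ⟨m, Q, hm, h1⟩

/-- transport of a membership -/
theorem transport {𝔭 𝔮 : Ideal R} (hq : 𝔮.IsPrime) {π : A[X]} (hN : 0 < π.natDegree)
    (hπ : θ π ∈ 𝔭) (hπ' : θ π ∈ 𝔮) (h : ¬ Low θ 𝔭 π.natDegree) (h' : ¬ Low θ 𝔮 π.natDegree)
    {P : A[X]} (hP : θ P ∈ 𝔭) : θ P ∈ 𝔮 := by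
  obtain ⟨m, Q, hm, h1⟩ := rem_zero hN hπ h hP
  refine cancel_C hq hN h' hm ?_
  rw [← map_mul, h1, map_mul]
  exact 𝔮.mul_mem_right _ hπ'

/-- **Uniqueness** of a prime which is not inert. -/
theorem uniq (hc : Cfg A R θ y a b c) {𝔭 𝔮 : Ideal R} (hq : 𝔮.IsPrime) {π : A[X]}
    (hN : 0 < π.natDegree)
    (hπ : θ π ∈ 𝔭) (hπ' : θ π ∈ 𝔮) (h : ¬ Low θ 𝔭 π.natDegree) (h' : ¬ Low θ 𝔮 π.natDegree)
    {m : A} (hm : m ≠ 0) {s : A[X]} (h1 : θ (C m) * y - θ s ∈ 𝔭) (h2 : θ (C m) * y - θ s ∈ 𝔮) :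
    𝔭 ≤ 𝔮 := by
  intro z hz
  obtain ⟨u, P, Q, hu, h3⟩ := hc.den z
  refine cancel_unit hu (cancel_C hq hN h' hm ?_)
  have e : θ (C m) * (u * z) = θ (C m * P + Q * s) + θ Q * (θ (C m) * y - θ s) := by
    rw [h3, map_add, map_mul, map_mul]
    ring
  rw [e]
  refine 𝔮.add_mem ?_ (𝔮.mul_mem_left _ h2)
  refine transport hq hN hπ hπ' h h' ?_
  have e2 : θ (C m * P + Q * s) = θ (C m) * (u * z) - θ Q * (θ (C m) * y - θ s) := by
    rw [e]
    ring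
  rw [e2]
  exact 𝔭.sub_mem (𝔭.mul_mem_left _ (𝔭.mul_mem_left _ hz)) (𝔭.mul_mem_left _ h1)

/-- Bézout -/
theorem bez {𝔭 : Ideal R} (hp : 𝔭.IsPrime) {π : A[X]} (hN : 0 < π.natDegree)
    (hπ : θ π ∈ 𝔭) (h : ¬ Low θ 𝔭 π.natDegree) {Q : A[X]} (hQ0 : Q ≠ 0)
    (hQ : Q.natDegree < π.natDegree) : ∃ (U T : A[X]) (m : A), m ≠ 0 ∧ U * Q + T * π = C m := by
  classical
  have hπ0 : π ≠ 0 := by
    rintro rfl
    rw [natDegree_zero] at hN
    exact lt_irrefl _ hN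
  have hex : ∃ n : ℕ, ∃ U T : A[X], U * Q + T * π ≠ 0 ∧ (U * Q + T * π).natDegree = n :=
    ⟨_, 1, 0, by rwa [one_mul, zero_mul, add_zero], rfl⟩
  obtain ⟨U, T, hg0, hgn⟩ := Nat.find_spec hex
  set n := Nat.find hex with hn
  have hmin : ∀ U' T' : A[X], (U' * Q + T' * π).natDegree < n → U' * Q + T' * π = 0 := by
    intro U' T' hlt
    by_contra h0
    exact Nat.find_min hex hlt ⟨U', T', h0, rfl⟩
  obtain ⟨g, hg⟩ : ∃ g, g = U * Q + T * π := ⟨_, rfl⟩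
  rw [← hg] at hg0 hgn
  have hle : n ≤ Q.natDegree := Nat.find_min' hex ⟨1, 0, by rwa [one_mul, zero_mul, add_zero],
    by rw [one_mul, zero_mul, add_zero]⟩
  by_cases hn0 : n = 0
  · rw [hn0] at hgn
    obtain ⟨m, hm⟩ := natDegree_eq_zero.1 hgn
    refine ⟨U, T, m, ?_, by rw [← hg, hm]⟩
    rintro rfl
    rw [C_0] at hm
    exact hg0 hm.symm
  · exfalso
    have hgpos : 0 < g.natDegree := by omega
    obtain ⟨m, Z, S, hm, h1, h2⟩ := pseudo' hgpos π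
    have hS : S = (-Z * U) * Q + (C m - Z * T) * π := by
      rw [hg] at h1
      linear_combination h1.symm
    have hS0 : S = 0 := by
      rw [hS]
      apply hmin
      rw [← hS]
      omega
    rw [hS0, add_zero] at h1
    have h3 : θ g * θ Z ∈ 𝔭 := by
      rw [← map_mul, ← h1, map_mul]
      exact 𝔭.mul_mem_left _ hπ
    have hZ0 : Z ≠ 0 := by
      rintro rfl
      rw [mul_zero] at h1
      exact mul_ne_zero (C_ne_zero.2 hm) hπ0 h1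
    have hdeg : g.natDegree + Z.natDegree = π.natDegree := by
      rw [← natDegree_mul hg0 hZ0, ← h1, natDegree_C_mul hm]
    rcases hp.mem_or_mem h3 with h4 | h4
    · exact h ⟨g, hg0, by omega, h4⟩
    · exact h ⟨Z, hZ0, by omega, h4⟩

/-- an inert prime -/
theorem inert (hc : Cfg A R θ y a b c) {𝔭 𝔮 : Ideal R} (hp : 𝔭.IsPrime) (hq : 𝔮.IsPrime) {π : A[X]}
    (hN : 0 < π.natDegree)
    (hπ : θ π ∈ 𝔭) (hπ' : θ π ∈ 𝔮) (h : ¬ Low θ 𝔭 π.natDegree) (h' : ¬ Low θ 𝔮 π.natDegree)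
    (hin : ∀ (m : A) (s : A[X]), m ≠ 0 → θ (C m) * y - θ s ∉ 𝔭) : 𝔭 ≤ 𝔮 := by
  intro z hz
  obtain ⟨u, P, Q, hu, h3⟩ := hc.den z
  obtain ⟨m1, Q1, Q2, hm1, e1, d1⟩ := pseudo' hN Q
  obtain ⟨m2, P1, P2, hm2, e2, d2⟩ := pseudo' hN P
  have key : θ (C (m1 * m2)) * (u * z) = θ π * (θ (C m1) * θ P1 + θ (C m2) * θ Q1 * y) +
      (θ (C m1 * P2) + θ (C m2 * Q2) * y) := by
    have e1' := congrArg θ e1
    have e2' := congrArg θ e2
    rw [map_mul, map_add, map_mul] at e1' e2'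
    rw [h3, C_mul, map_mul, map_mul, map_mul]
    linear_combination θ (C m1) * e2' + θ (C m2) * y * e1'
  have hmem : θ (C m1 * P2) + θ (C m2 * Q2) * y ∈ 𝔭 := by
    have : θ (C m1 * P2) + θ (C m2 * Q2) * y = θ (C (m1 * m2)) * (u * z) -
        θ π * (θ (C m1) * θ P1 + θ (C m2) * θ Q1 * y) := by
      rw [key]
      ring
    rw [this]
    exact 𝔭.sub_mem (𝔭.mul_mem_left _ (𝔭.mul_mem_left _ hz)) (𝔭.mul_mem_right _ hπ)
  have d1' : (C m2 * Q2).natDegree < π.natDegree := (natDegree_C_mul_le _ _).trans_lt d1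
  have d2' : (C m1 * P2).natDegree < π.natDegree := (natDegree_C_mul_le _ _).trans_lt d2
  have hQ3 : C m2 * Q2 = 0 := by
    by_contra hQ0
    obtain ⟨U, T, m, hm, hUT⟩ := bez hp hN hπ h hQ0 d1'
    apply hin m (-(U * (C m1 * P2))) hm
    have e : θ (C m) * y - θ (-(U * (C m1 * P2))) = θ U * (θ (C m1 * P2) + θ (C m2 * Q2) * y) +
        θ T * θ π * y := by
      rw [← hUT, map_neg, map_add, map_mul θ U, map_mul θ T, map_mul θ U (C m1 * P2)]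
      ring
    rw [e]
    exact 𝔭.add_mem (𝔭.mul_mem_left _ hmem) (𝔭.mul_mem_right _ (𝔭.mul_mem_left _ hπ))
  rw [hQ3, map_zero, zero_mul, add_zero] at hmem key
  have hP3 := zero_of_low h d2' hmem
  rw [hP3, map_zero, add_zero] at key
  refine cancel_unit hu (cancel_C hq hN h' (mul_ne_zero hm1 hm2) ?_)
  rw [key]
  exact 𝔮.mul_mem_right _ hπ'

theorem eq_of_le {𝔭 𝔮 : Ideal R} (hp : 𝔭.IsPrime) (h0 : 𝔭 ≠ ⊥) (hq : 𝔮.IsPrime) (h : 𝔭 ≤ 𝔮) :
    𝔮 = 𝔭 :=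
  ((hp.isMaximal h0).eq_of_le hq.ne_top h).symm

/-- **The induction step.** -/
theorem step (hc : Cfg A R θ y a b c) (H : Subgroup (ClassGroup R))
    (hsat : ∀ (c : ClassGroup R) (n : ℕ), n ≠ 0 → c ^ n ∈ H → c ∈ H) (N : ℕ) (hN : 1 ≤ N)
    (ih : ∀ (𝔮 : Ideal R) (h0 : 𝔮 ∈ nonZeroDivisors (Ideal R)), 𝔮.IsPrime → Low θ 𝔮 N →
      ClassGroup.mk0 ⟨𝔮, h0⟩ ∈ H) (𝔭 : Ideal R) (h0 : 𝔭 ∈ nonZeroDivisors (Ideal R))
    (hp : 𝔭.IsPrime) {π : A[X]} (hπN : π.natDegree = N) (hπ : θ π ∈ 𝔭) (hlow : ¬ Low θ 𝔭 N) :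
    ClassGroup.mk0 ⟨𝔭, h0⟩ ∈ H := by
  classical
  subst hπN
  have hp0 : 𝔭 ≠ ⊥ := nonZeroDivisors.ne_zero h0
  have hπ0 : π ≠ 0 := by
    rintro rfl
    rw [natDegree_zero] at hN
    omega
  have hinj : ∀ P : A[X], θ P = 0 → P = 0 := fun P hP =>
    (hc.ind P 0 (by rw [hP, map_zero, zero_mul, add_zero])).1
  have hθπ0 : θ π ≠ 0 := fun h => hπ0 (hinj _ h)
  by_cases hin : ∀ (m : A) (s : A[X]), m ≠ 0 → θ (C m) * y - θ s ∉ 𝔭
  · -- an inert prime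
    refine root_mem H hsat hθπ0 hp h0 hπ fun 𝔮 h0q hq hxq hne => ?_
    by_cases hlq : Low θ 𝔮 π.natDegree
    · exact ih 𝔮 h0q hq hlq
    · exact (hne (eq_of_le hp hp0 hq (inert hc hp hq hN hπ hxq hlow hlq hin))).elim
  push Not at hin
  obtain ⟨m₀, s₀, hm₀, hs₀⟩ := hin
  -- reduction of the degree
  obtain ⟨m₁, Q₁, s, hm₁, hs1, hsd⟩ := pseudo' hN s₀
  obtain ⟨m, hmdef⟩ : ∃ m, m = m₁ * m₀ := ⟨_, rfl⟩
  have hm : m ≠ 0 := by rw [hmdef]; exact mul_ne_zero hm₁ hm₀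
  have hs : θ (C m) * y - θ s ∈ 𝔭 := by
    have e : θ (C m) * y - θ s = θ (C m₁) * (θ (C m₀) * y - θ s₀) + θ π * θ Q₁ := by
      have h1 := congrArg θ hs1
      rw [map_mul, map_add, map_mul] at h1
      rw [hmdef, C_mul, map_mul]
      linear_combination h1
    rw [e]
    exact 𝔭.add_mem (𝔭.mul_mem_left _ hs₀) (𝔭.mul_mem_right _ hπ)
  by_cases hy : y ∈ 𝔭
  · -- a ramified prime
    refine root_mem H hsat hθπ0 hp h0 hπ fun 𝔮 h0q hq hxq hne => ?_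
    by_cases hlq : Low θ 𝔮 π.natDegree
    · exact ih 𝔮 h0q hq hlq
    · have h1 : θ (f2 a b c) ∈ 𝔭 := by
        rw [← hc.sq]
        exact 𝔭.pow_mem_of_mem hy 2 two_pos
      have h2 : y ∈ 𝔮 := by
        have h3 := transport hq hN hπ hxq hlow hlq h1
        rw [← hc.sq] at h3
        exact hq.mem_of_pow_mem 2 h3
      refine (hne (eq_of_le hp hp0 hq (uniq hc hq hN hπ hxq hlow hlq (m := 1) one_ne_zero (s := 0)
        ?_ ?_))).elim
      · rw [C_1, map_one, map_zero, one_mul, sub_zero]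
        exact hy
      · rw [C_1, map_one, map_zero, one_mul, sub_zero]
        exact h2
  -- a split prime
  have hnorm : ∀ (α : A) (β : A[X]), θ (β ^ 2 - C (α ^ 2) * f2 a b c) =
      -((θ (C α) * y - θ β) * (θ (C α) * y + θ β)) := by
    intro α β
    rw [map_sub, map_mul, ← hc.sq, map_pow, C_pow, map_pow]
    ring
  have hx0 : ∀ (α : A) (β : A[X]), α ≠ 0 → θ (C α) * y - θ β ≠ 0 := by
    intro α β hα h
    have h1 := (hc.ind (-β) (C α) (by rw [map_neg, ← h]; ring)).2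
    exact hα (C_eq_zero.1 h1)
  have hx0' : ∀ (α : A) (β : A[X]), α ≠ 0 → θ (C α) * y + θ β ≠ 0 := by
    intro α β hα h
    have h1 := (hc.ind β (C α) (by rw [← h]; ring)).2
    exact hα (C_eq_zero.1 h1)
  by_cases hN2 : 2 ≤ π.natDegree
  · -- degree at least two
    refine root_mem H hsat (hx0 m s hm) hp h0 hs fun 𝔮 h0q hq hxq hne => ?_
    by_cases hlq : Low θ 𝔮 π.natDegree
    · exact ih 𝔮 h0q hq hlq
    exfalso
    obtain ⟨N0, hN0⟩ : ∃ N0, N0 = s ^ 2 - C (m ^ 2) * f2 a b c := ⟨_, rfl⟩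
    have hN0p : θ N0 ∈ 𝔭 := by
      rw [hN0, hnorm]
      exact 𝔭.neg_mem (𝔭.mul_mem_right _ hs)
    have hN0q : θ N0 ∈ 𝔮 := by
      rw [hN0, hnorm]
      exact 𝔮.neg_mem (𝔮.mul_mem_right _ hxq)
    have hN0ne : N0 ≠ 0 := by
      intro h
      have h1 := hnorm m s
      rw [← hN0, h, map_zero] at h1
      rcases mul_eq_zero.1 (neg_eq_zero.1 h1.symm) with h2 | h2
      · exact hx0 m s hm h2
      · exact hx0' m s hm h2
    obtain ⟨m', Q, hm', hQ⟩ := rem_zero hN hπ hlow hN0p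
    have hQ0 : Q ≠ 0 := by
      rintro rfl
      rw [mul_zero] at hQ
      exact mul_ne_zero (C_ne_zero.2 hm') hN0ne hQ
    have hd1 : π.natDegree + Q.natDegree = N0.natDegree := by
      rw [← natDegree_mul hπ0 hQ0, ← hQ, natDegree_C_mul hm']
    have hd2 : N0.natDegree ≤ 2 * (π.natDegree - 1) := by
      rw [hN0]
      refine (natDegree_sub_le _ _).trans (max_le ?_ ?_)
      · rw [natDegree_pow]
        omega
      · refine (natDegree_C_mul_le _ _).trans ?_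
        have h3 : (f2 a b c).natDegree ≤ 2 := by
          unfold f2
          compute_degree
        omega
    have h4 : θ π * θ Q ∈ 𝔮 := by
      rw [← map_mul, ← hQ, map_mul]
      exact 𝔮.mul_mem_left _ hN0q
    rcases hq.mem_or_mem h4 with h5 | h5
    · exact hne (eq_of_le hp hp0 hq (uniq hc hq hN hπ h5 hlow hlq hm hs hxq))
    · exact hlq ⟨Q, hQ0, by omega, h5⟩
  · -- degree one
    have hN1 : π.natDegree = 1 := by omega
    obtain ⟨m1, m0, hπe⟩ : ∃ m1 m0, π = C m1 * X - C m0 := by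
      refine ⟨π.coeff 1, -π.coeff 0, ?_⟩
      have := Polynomial.eq_X_add_C_of_natDegree_le_one (p := π) (by omega)
      rw [C_neg, sub_neg_eq_add]
      exact this
    have hm1 : m1 ≠ 0 := by
      rintro rfl
      rw [hπe, C_0, zero_mul, zero_sub, natDegree_neg, natDegree_C] at hN1
      exact zero_ne_one hN1
    obtain ⟨s0, rfl⟩ : ∃ s0, s = C s0 := by
      obtain ⟨s0, h⟩ := natDegree_eq_zero.1 (show s.natDegree = 0 by omega)
      exact ⟨s0, h.symm⟩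
    have hs0 : s0 ≠ 0 := by
      rintro rfl
      rw [C_0, map_zero, sub_zero] at hs
      exact hy (cancel_C hp hN hlow hm hs)
    -- the relation
    have hrel : s0 ^ 2 * m1 ^ 2 = m ^ 2 * (a * m0 ^ 2 + b * m0 * m1 + c * m1 ^ 2) := by
      have h1 : θ (C s0 ^ 2 - C (m ^ 2) * f2 a b c) ∈ 𝔭 := by
        rw [hnorm]
        exact 𝔭.neg_mem (𝔭.mul_mem_right _ hs)
      have h2 : C (s0 ^ 2 * m1 ^ 2 - m ^ 2 * (a * m0 ^ 2 + b * m0 * m1 + c * m1 ^ 2)) =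
          C (m1 ^ 2) * (C s0 ^ 2 - C (m ^ 2) * f2 a b c) +
            π * (C (m ^ 2) * (C a * (π + 2 * C m0) + C (b * m1))) := by
        rw [hπe]
        unfold f2
        simp only [C_sub, C_add, C_mul, C_pow]
        ring
      have h3 : θ (C (s0 ^ 2 * m1 ^ 2 - m ^ 2 * (a * m0 ^ 2 + b * m0 * m1 + c * m1 ^ 2))) ∈ 𝔭 := by
        rw [h2, map_add, map_mul, map_mul θ π]
        exact 𝔭.add_mem (𝔭.mul_mem_left _ h1) (𝔭.mul_mem_right _ hπ)
      have h4 := zero_of_low hlow (by rw [natDegree_C]; omega) h3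
      exact sub_eq_zero.1 (C_eq_zero.1 h4)
    obtain ⟨α, hα⟩ : ∃ α, α = 2 * s0 * m1 ^ 2 * m := ⟨_, rfl⟩
    obtain ⟨β, hβ⟩ : ∃ β, β = C (2 * s0 ^ 2 * m1 ^ 2) + C (m ^ 2 * (2 * a * m0 + b * m1)) * π :=
      ⟨_, rfl⟩
    have hα0 : α ≠ 0 := by
      rw [hα]
      exact mul_ne_zero (mul_ne_zero (mul_ne_zero hc.two hs0) (pow_ne_zero 2 hm1)) hm
    have hxe : θ (C α) * y - θ β = θ (C (2 * s0 * m1 ^ 2)) * (θ (C m) * y - θ (C s0)) -
        θ (C (m ^ 2 * (2 * a * m0 + b * m1))) * θ π := by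
      rw [hα, hβ, map_add, map_mul θ _ π, C_mul (b := m), map_mul θ _ (C m),
        show (2 * s0 ^ 2 * m1 ^ 2 : A) = (2 * s0 * m1 ^ 2) * s0 by ring, C_mul (b := s0), map_mul θ _ (C s0)]
      ring
    have hxp : θ (C α) * y - θ β ∈ 𝔭 := by
      rw [hxe]
      exact 𝔭.sub_mem (𝔭.mul_mem_left _ hs) (𝔭.mul_mem_left _ hπ)
    have hid : β ^ 2 - C (α ^ 2) * f2 a b c =
        C (m ^ 4 * m1 ^ 2 * (b ^ 2 - 4 * a * c)) * π ^ 2 := by
      have hrelC : (C s0 ^ 2 * C m1 ^ 2 : A[X]) =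
          C m ^ 2 * (C a * C m0 ^ 2 + C b * C m0 * C m1 + C c * C m1 ^ 2) := by
        simp only [← C_pow, ← C_mul, ← C_add]
        rw [hrel]
      rw [hβ, hα, hπe]
      unfold f2
      simp only [C_sub, C_add, C_mul, C_pow, show (C 2 : A[X]) = 2 from rfl,
        show (C 4 : A[X]) = 4 from rfl]
      linear_combination (4 * C s0 ^ 2 * C m1 ^ 2 - 4 * C m ^ 2 * C m1 ^ 2 * (C c + C b * X + C a * X ^ 2) + 4 * C m ^ 2 * (2 * C a * C m0 + C b * C m1) * (C m1 * X - C m0) + 4 * C m ^ 2 * (C a * C m0 ^ 2 + C b * C m0 * C m1 + C c * C m1 ^ 2)) * hrelC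
    refine root_mem H hsat (hx0 α β hα0) hp h0 hxp fun 𝔮 h0q hq hxq hne => ?_
    by_cases hlq : Low θ 𝔮 π.natDegree
    · exact ih 𝔮 h0q hq hlq
    exfalso
    have h5 : θ (C (m ^ 4 * m1 ^ 2 * (b ^ 2 - 4 * a * c))) * θ π ^ 2 ∈ 𝔮 := by
      rw [← map_pow, ← map_mul, ← hid, hnorm]
      exact 𝔮.neg_mem (𝔮.mul_mem_right _ hxq)
    have h6 : θ π ∈ 𝔮 := by
      refine hq.mem_of_pow_mem 2 (cancel_C hq hN hlq ?_ h5)
      exact mul_ne_zero (mul_ne_zero (pow_ne_zero 4 hm) (pow_ne_zero 2 hm1)) hc.disc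
    have h7 : θ (C m) * y - θ (C s0) ∈ 𝔮 := by
      refine cancel_C hq hN hlq (m := 2 * s0 * m1 ^ 2)
        (mul_ne_zero (mul_ne_zero hc.two hs0) (pow_ne_zero 2 hm1)) ?_
      have : θ (C (2 * s0 * m1 ^ 2)) * (θ (C m) * y - θ (C s0)) = (θ (C α) * y - θ β) +
          θ (C (m ^ 2 * (2 * a * m0 + b * m1))) * θ π := by
        rw [hxe]
        ring
      rw [this]
      exact 𝔮.add_mem hxq (𝔮.mul_mem_left _ h6)
    exact hne (eq_of_le hp hp0 hq (uniq hc hq hN hπ h6 hlow hlq hm hs h7))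

/-- **Generation up to torsion.** -/
theorem gen_low (hc : Cfg A R θ y a b c) (H : Subgroup (ClassGroup R))
    (hsat : ∀ (c : ClassGroup R) (n : ℕ), n ≠ 0 → c ^ n ∈ H → c ∈ H)
    (hv : ∀ (𝔮 : Ideal R) (h0 : 𝔮 ∈ nonZeroDivisors (Ideal R)), 𝔮.IsPrime →
      (∃ m : A, m ≠ 0 ∧ θ (C m) ∈ 𝔮) → ClassGroup.mk0 ⟨𝔮, h0⟩ ∈ H) : H = ⊤ := by
  have key : ∀ (n : ℕ) (𝔭 : Ideal R) (h0 : 𝔭 ∈ nonZeroDivisors (Ideal R)), 𝔭.IsPrime →
      Low θ 𝔭 (n + 1) → ClassGroup.mk0 ⟨𝔭, h0⟩ ∈ H := by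
    intro n
    induction n with
    | zero =>
      intro 𝔭 h0 hp hl
      obtain ⟨π, h1, h2, h3⟩ := hl
      obtain ⟨m, rfl⟩ := natDegree_eq_zero.1 (show π.natDegree = 0 by omega)
      refine hv 𝔭 h0 hp ⟨m, ?_, h3⟩
      rintro rfl
      exact h1 C_0
    | succ n ih =>
      intro 𝔭 h0 hp hl
      by_cases hlow : Low θ 𝔭 (n + 1)
      · exact ih 𝔭 h0 hp hlow
      · obtain ⟨π, h1, h2, h3⟩ := hl
        have hπN : π.natDegree = n + 1 := by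
          by_contra hne
          exact hlow ⟨π, h1, by omega, h3⟩
        exact step hc H hsat (n + 1) (by omega) ih 𝔭 h0 hp hπN h3 hlow
  rw [eq_top_iff]
  intro cl _
  obtain ⟨⟨I, hI⟩, rfl⟩ := ClassGroup.mk0_surjective cl
  refine mem_of_primes H I hI fun 𝔮 h0 hq hle => ?_
  -- every nonzero prime contains a nonzero polynomial
  have hq0 : 𝔮 ≠ ⊥ := nonZeroDivisors.ne_zero h0
  obtain ⟨z, hz, hz0⟩ := Submodule.exists_mem_ne_zero_of_ne_bot hq0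
  obtain ⟨u, P, Q, hu, h3⟩ := hc.den z
  have huz : u * z ≠ 0 := mul_ne_zero hu.ne_zero hz0
  have hn : P ^ 2 - Q ^ 2 * f2 a b c ≠ 0 := by
    intro h
    have h1 : (θ P + θ Q * y) * (θ P - θ Q * y) = 0 := by
      have h4 := congrArg θ h
      rw [map_sub, map_mul, map_pow, map_pow, ← hc.sq, map_zero] at h4
      linear_combination h4
    rcases mul_eq_zero.1 h1 with h2 | h2
    · exact huz (h3.trans h2)
    · obtain ⟨e1, e2⟩ := hc.ind P (-Q) (by rw [map_neg]; linear_combination h2)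
      apply huz
      rw [h3, e1, neg_eq_zero.1 e2, map_zero, zero_mul, add_zero]
  have hmem : θ (P ^ 2 - Q ^ 2 * f2 a b c) ∈ 𝔮 := by
    have : θ (P ^ 2 - Q ^ 2 * f2 a b c) = (θ P - θ Q * y) * (u * z) := by
      rw [map_sub, map_mul, map_pow, map_pow, ← hc.sq, h3]
      ring
    rw [this]
    exact 𝔮.mul_mem_left _ (𝔮.mul_mem_left _ hz)
  exact key _ 𝔮 h0 hq ⟨_, hn, Nat.lt_succ_self _, hmem⟩

end

end Pool.Agent.R410.CB
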