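import Pool.Agent.R410.CB.Des

/-!
# The solutions of the norm equation when the leading coefficient is a square
-/

set_option autoImplicit false
set_option linter.all false
set_option maxHeartbeats 1000000

namespace Pool.Agent.R410.CB

open Polynomial Pool.Agent.TH943.HJ Pool.Agent.Y707.PC
open Pool.Agent.Y707.DK (irr_up prime_over)

section
variable {A : Type} [CommRing A] [IsDomain A] {a b c α : A}

/-- the derivative `2 a v + b` -/
noncomputable def tt (a b : A) : A[X] := C (2 * a) * X + C b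

theorem tt_sq : tt a b ^ 2 - 4 * C a * f2 a b c = C (b ^ 2 - 4 * a * c) := by
  unfold tt f2
  simp only [C_sub, C_mul, C_pow, show (C 2 : A[X]) = 2 from rfl, show (C 4 : A[X]) = 4 from rfl]
  ring

/-- the reduction of a solution -/
theorem pell_step (h2 : (2 : A) ≠ 0) (hα : α ≠ 0) (haα : a = α ^ 2) {P Q : A[X]} {γ : A}
    (hE : P ^ 2 - f2 a b c * Q ^ 2 = C γ) (hQ : Q ≠ 0) (hPd : P.natDegree = Q.natDegree + 1)
    (hl : P.leadingCoeff = α * Q.leadingCoeff) :
    2 * C α * P - Q * tt a b = 0 ∨ (2 * C α * P - Q * tt a b).natDegree < Q.natDegree := by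
  by_cases h0 : 2 * C α * P - Q * tt a b = 0
  · exact Or.inl h0
  right
  have hlQ : Q.leadingCoeff ≠ 0 := leadingCoeff_ne_zero.2 hQ
  have h4 : (4 : A) ≠ 0 := by
    have : (4 : A) = 2 * 2 := by norm_num
    rw [this]
    exact mul_ne_zero h2 h2
  have hid : (2 * C α * P - Q * tt a b) * (2 * C α * P + Q * tt a b) =
      C (4 * a * γ) - Q ^ 2 * C (b ^ 2 - 4 * a * c) := by
    rw [← tt_sq (a := a) (b := b) (c := c)]
    have e1 : (C a : A[X]) = C α ^ 2 := by rw [haα, C_pow]
    simp only [C_mul, show (C 4 : A[X]) = 4 from rfl]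
    rw [← hE, e1]
    ring
  -- the other factor
  have hc : (2 * C α * P + Q * tt a b).coeff (Q.natDegree + 1) = 4 * a * Q.leadingCoeff := by
    have e1 : (2 * C α * P : A[X]).coeff (Q.natDegree + 1) = 2 * α * (α * Q.leadingCoeff) := by
      have : (2 * C α * P : A[X]) = C (2 * α) * P := by
        rw [C_mul]
        rfl
      rw [this, coeff_C_mul, ← hPd, ← hl]
      rfl
    have e2 : (Q * tt a b).coeff (Q.natDegree + 1) = Q.leadingCoeff * (2 * a) := by
      unfold tt
      rw [mul_add, coeff_add, ← mul_assoc, coeff_mul_X, mul_comm Q (C (2 * a)), coeff_C_mul, mul_comm Q,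
        coeff_C_mul, coeff_eq_zero_of_natDegree_lt (Nat.lt_succ_self _)]
      show 2 * a * Q.leadingCoeff + b * 0 = _
      ring
    rw [coeff_add, e1, e2, haα]
    ring
  have hcne : (2 * C α * P + Q * tt a b).coeff (Q.natDegree + 1) ≠ 0 := by
    rw [hc, haα]
    exact mul_ne_zero (mul_ne_zero h4 (pow_ne_zero 2 hα)) hlQ
  have hge : Q.natDegree + 1 ≤ (2 * C α * P + Q * tt a b).natDegree := le_natDegree_of_ne_zero hcne
  have hne : 2 * C α * P + Q * tt a b ≠ 0 := by
    intro h
    rw [h, coeff_zero] at hcne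
    exact hcne rfl
  have hle : ((2 * C α * P - Q * tt a b) * (2 * C α * P + Q * tt a b)).natDegree ≤
      2 * Q.natDegree := by
    rw [hid]
    refine (natDegree_sub_le _ _).trans (max_le (by rw [natDegree_C]; exact Nat.zero_le _) ?_)
    refine natDegree_mul_le.trans ?_
    rw [natDegree_C, natDegree_pow, add_zero]
  rw [natDegree_mul h0 hne] at hle
  omega

end

section
variable {M L : Type} [Field M] [Field L] [Algebra M L] {ω : L} {a b c α : M[X]}

/-- the unit of the conic -/
noncomputable def e1 (ω : L) (a b c α : M[X]) : CR (fq a b c ω) :=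
  el (-bb ω (tt a b)) (bb ω (C (2 * α)))

/-- **The solutions.** -/
theorem pell (h2 : (2 : M) ≠ 0) (hω : Transcendental M ω)
    [IsDedekindDomain (CR (fq a b c ω))]
    (hα : α ≠ 0) (haα : a = α ^ 2) (hΔ : b ^ 2 - 4 * a * c ≠ 0) :
    ∀ (n : ℕ) (P Q : M[X][X]) (γ : M[X]), γ ≠ 0 → P ^ 2 - f2 a b c * Q ^ 2 = C γ →
      (Q = 0 ∨ Q.natDegree < n) → ∃ k : ℤ, ∀ g w : L[X], Irreducible g → g ∣ fq a b c ω - w ^ 2 →
        ¬ g ∣ w → dw (fq a b c ω) g w (Ideal.span {el (bb ω P) (bb ω Q)}) =
          k * dw (fq a b c ω) g w (Ideal.span {e1 ω a b c α}) := by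
  have h2L : (2 : L) ≠ 0 := by
    rw [← map_ofNat (algebraMap M L) 2]
    exact fun h => h2 ((map_eq_zero _).1 h)
  have h2X : (2 : M[X]) ≠ 0 := by
    intro h
    apply h2
    have h1 : (C 2 : M[X]) = 0 := by rw [map_ofNat]; exact h
    exact C_eq_zero.1 h1
  have hbb : ∀ P : M[X][X], P ≠ 0 → bb ω P ≠ 0 := fun P hP h => hP (bb_inj hω (by rw [h, map_zero]))
  have helne : ∀ P Q : M[X][X], Q ≠ 0 → (el (bb ω P) (bb ω Q) : CR (fq a b c ω)) ≠ 0 := by
    intro P Q hQ h
    exact hbb Q hQ (el_eq_zero h).2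
  have hE1 : e1 ω a b c α = el (bb ω (-tt a b)) (bb ω (C (2 * α))) := by
    unfold e1
    rw [map_neg]
  have hCα : (C (2 * α) : M[X][X]) ≠ 0 := by
    rw [Ne, C_eq_zero]
    exact mul_ne_zero h2X hα
  have hE10 : e1 ω a b c α ≠ 0 := by
    rw [hE1]
    exact helne _ _ hCα
  have hconj : ∀ (P Q : M[X][X]) (γ : M[X]), γ ≠ 0 → P ^ 2 - f2 a b c * Q ^ 2 = C γ → Q ≠ 0 →
      ∀ g w : L[X], Irreducible g → g ∣ fq a b c ω - w ^ 2 → ¬ g ∣ w →
        dw (fq a b c ω) g w (Ideal.span {el (bb ω P) (bb ω (-Q))}) =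
          -dw (fq a b c ω) g w (Ideal.span {el (bb ω P) (bb ω Q)}) := by
    intro P Q γ hγ hE hQ g w hg hd hw
    have h3 : (el (bb ω P) (bb ω Q) : CR (fq a b c ω)) * el (bb ω P) (bb ω (-Q)) = pp (up γ) := by
      rw [← bb_C (ω := ω) γ, ← hE, el_mul, ← el_left]
      congr 1
      · unfold fq
        simp only [map_sub, map_mul, map_pow, map_neg]
        ring
      · rw [map_neg]
        ring
    have h4 := dw_mul (g := g) (w := w) (helne P Q hQ) (helne P (-Q) (neg_ne_zero.2 hQ))
    rw [h3, dw_pp h2L hg hd hw _ (up_ne hγ)] at h4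
    linarith
  intro n
  induction n with
  | zero =>
    intro P Q γ hγ hE hQ
    have hQ0 : Q = 0 := by
      rcases hQ with h | h
      · exact h
      · exact (Nat.not_lt_zero _ h).elim
    subst hQ0
    have hP : P.natDegree = 0 := by
      have h3 := congrArg natDegree hE
      rw [zero_pow two_ne_zero, mul_zero, sub_zero, natDegree_pow, natDegree_C] at h3
      omega
    obtain ⟨p, rfl⟩ := natDegree_eq_zero.1 hP
    have hp : p ≠ 0 := by
      rintro rfl
      rw [C_0, zero_pow two_ne_zero, mul_zero, sub_zero] at hE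
      exact hγ (C_eq_zero.1 hE.symm)
    refine ⟨0, fun g w hg hd hw => ?_⟩
    rw [zero_mul, map_zero, el_left, bb_C]
    exact dw_pp h2L hg hd hw _ (up_ne hp)
  | succ n ih =>
    intro P Q γ hγ hE hQd
    by_cases hQ : Q = 0
    · exact ih P Q γ hγ hE (Or.inl hQ)
    have hQn : Q.natDegree ≤ n := by
      rcases hQd with h | h
      · exact absurd h hQ
      · omega
    -- the case of the positive sign
    have case1 : ∀ P Q : M[X][X], P ^ 2 - f2 a b c * Q ^ 2 = C γ → Q ≠ 0 → Q.natDegree ≤ n →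
        P.natDegree = Q.natDegree + 1 → P.leadingCoeff = α * Q.leadingCoeff →
        ∃ k : ℤ, ∀ g w : L[X], Irreducible g → g ∣ fq a b c ω - w ^ 2 →
          ¬ g ∣ w → dw (fq a b c ω) g w (Ideal.span {el (bb ω P) (bb ω Q)}) =
            k * dw (fq a b c ω) g w (Ideal.span {e1 ω a b c α}) := by
      intro P Q hE hQ hQn hPd hl
      have h3 := pell_step h2X hα haα hE hQ hPd hl
      have hE' : (2 * C α * Q * f2 a b c - P * tt a b) ^ 2 -
          f2 a b c * (2 * C α * P - Q * tt a b) ^ 2 = C (γ * (b ^ 2 - 4 * a * c)) := by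
        rw [C_mul, ← hE, ← tt_sq (a := a) (b := b) (c := c)]
        have e1 : (C a : M[X][X]) = C α ^ 2 := by rw [haα, C_pow]
        rw [e1]
        ring
      have h5 : 2 * C α * P - Q * tt a b = 0 ∨ (2 * C α * P - Q * tt a b).natDegree < n := by
        rcases h3 with h | h
        · exact Or.inl h
        · exact Or.inr (by omega)
      obtain ⟨k, hk⟩ := ih _ _ _ (mul_ne_zero hγ hΔ) hE' h5
      refine ⟨k - 1, fun g w hg hd hw => ?_⟩
      have h6 := hk g w hg hd hw
      have h7 : (el (bb ω P) (bb ω Q) : CR (fq a b c ω)) * e1 ω a b c α =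
          el (bb ω (2 * C α * Q * f2 a b c - P * tt a b)) (bb ω (2 * C α * P - Q * tt a b)) := by
        rw [hE1, el_mul]
        congr 1
        · unfold fq
          simp only [map_sub, map_mul, map_neg, C_mul, show (C 2 : M[X][X]) = 2 from rfl]
          ring
        · simp only [map_sub, map_mul, map_neg, C_mul, show (C 2 : M[X][X]) = 2 from rfl]
          ring
      rw [← h7, dw_mul (helne P Q hQ) hE10] at h6
      rw [sub_mul, one_mul]
      linarith
    obtain ⟨ha0, hPd, hl2⟩ := top_step hΔ hE hQ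
    have hl3 : (P.leadingCoeff - α * Q.leadingCoeff) * (P.leadingCoeff + α * Q.leadingCoeff) = 0 := by
      rw [haα] at hl2
      linear_combination hl2
    rcases mul_eq_zero.1 hl3 with h3 | h3
    · exact case1 P Q hE hQ hQn hPd (sub_eq_zero.1 h3)
    · have hnQ : -Q ≠ 0 := neg_ne_zero.2 hQ
      obtain ⟨k, hk⟩ := case1 P (-Q) (by rw [← hE]; ring) hnQ (by rwa [natDegree_neg])
        (by rwa [natDegree_neg]) (by rw [leadingCoeff_neg]; linear_combination h3)
      refine ⟨-k, fun g w hg hd hw => ?_⟩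
      have h6 := hk g w hg hd hw
      rw [hconj P Q γ hγ hE hQ g w hg hd hw] at h6
      rw [neg_mul, ← h6, neg_neg]

end

end Pool.Agent.R410.CB
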