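import Pool.Agent.R410.CB.Cl

/-!
# The rank of the class group of the generic fibre of a conic bundle
-/

set_option autoImplicit false
set_option linter.all false
set_option maxHeartbeats 1000000

namespace Pool.Agent.R410.CB

open Polynomial Pool.Agent.TH943.HJ Pool.Agent.Y707.PC
open Pool.Agent.Y707.DK (irr_up prime_over cop_phi)

section
variable {G : Type} [AddCommGroup G] {ι : Type} [Fintype ι]

theorem rank_of (v : ι → G) (hli : LinearIndependent ℤ v)
    (ht : ∀ x : G, ∃ n : ℕ, n ≠ 0 ∧ (n : ℤ) • x ∈ Submodule.span ℤ (Set.range v)) :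
    Module.rank ℤ G = Fintype.card ι := by
  have h1 := rank_quotient_add_rank_of_isDomain (Submodule.span ℤ (Set.range v))
  have h2 : Module.rank ℤ (Submodule.span ℤ (Set.range v)) = Fintype.card ι :=
    rank_eq_card_basis (Module.Basis.span hli)
  have h3 : Module.rank ℤ (G ⧸ Submodule.span ℤ (Set.range v)) = 0 := by
    rw [rank_eq_zero_iff]
    intro x
    obtain ⟨y, rfl⟩ := Submodule.Quotient.mk_surjective _ x
    obtain ⟨n, hn, h⟩ := ht y
    refine ⟨n, by exact_mod_cast hn, ?_⟩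
    rw [← Submodule.Quotient.mk_smul, Submodule.Quotient.mk_eq_zero]
    exact h
  rw [← h1, h2, h3, zero_add]

variable {B : Type} [CommRing B] [IsDedekindDomain B]

/-- the saturation of a subgroup of the class group -/
def sat (N : Submodule ℤ (Additive (ClassGroup B))) : Subgroup (ClassGroup B) where
  carrier := {c | ∃ n : ℕ, n ≠ 0 ∧ (n : ℤ) • Additive.ofMul c ∈ N}
  mul_mem' := by
    rintro x y ⟨n, hn, hx⟩ ⟨m, hm, hy⟩
    refine ⟨n * m, mul_ne_zero hn hm, ?_⟩
    rw [ofMul_mul, smul_add]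
    refine N.add_mem ?_ ?_
    · have : ((n * m : ℕ) : ℤ) • Additive.ofMul x = (m : ℤ) • (n : ℤ) • Additive.ofMul x := by
        rw [smul_smul]
        push_cast
        ring_nf
      rw [this]
      exact N.smul_mem _ hx
    · have : ((n * m : ℕ) : ℤ) • Additive.ofMul y = (n : ℤ) • (m : ℤ) • Additive.ofMul y := by
        rw [smul_smul]
        push_cast
        ring_nf
      rw [this]
      exact N.smul_mem _ hy
  one_mem' := ⟨1, one_ne_zero, by rw [ofMul_one, smul_zero]; exact N.zero_mem⟩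
  inv_mem' := by
    rintro x ⟨n, hn, hx⟩
    refine ⟨n, hn, ?_⟩
    rw [ofMul_inv, smul_neg]
    exact N.neg_mem hx

theorem sat_sat (N : Submodule ℤ (Additive (ClassGroup B))) (c : ClassGroup B) (n : ℕ) (hn : n ≠ 0)
    (h : c ^ n ∈ sat N) : c ∈ sat N := by
  obtain ⟨m, hm, h1⟩ := h
  refine ⟨m * n, mul_ne_zero hm hn, ?_⟩
  rw [ofMul_pow, ← natCast_zsmul, smul_smul] at h1
  push_cast
  exact h1

theorem mem_sat {N : Submodule ℤ (Additive (ClassGroup B))} {c : ClassGroup B}
    (h : Additive.ofMul c ∈ N) : c ∈ sat N := ⟨1, one_ne_zero, by rw [Nat.cast_one, one_smul]; exact h⟩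

end

section
variable {L : Type} [Field L] {F g w w' : L[X]}

theorem pid_congr (h : g ∣ w' - w) : pid F g w' = pid F g w := by
  obtain ⟨t, ht⟩ := h
  have e : w' = w + g * t := by rw [← ht]; ring
  unfold pid
  apply le_antisymm
  · rw [Ideal.span_le]
    rintro z (rfl | rfl)
    · exact Ideal.subset_span (Set.mem_insert _ _)
    · have : yy F - pp w' = (yy F - pp w) - pp t * pp g := by
        rw [e, map_add, map_mul]
        ring
      rw [SetLike.mem_coe, this]
      exact Ideal.sub_mem _ (Ideal.subset_span (Set.mem_insert_of_mem _ rfl))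
        (Ideal.mul_mem_left _ _ (Ideal.subset_span (Set.mem_insert _ _)))
  · rw [Ideal.span_le]
    rintro z (rfl | rfl)
    · exact Ideal.subset_span (Set.mem_insert _ _)
    · have : yy F - pp w = (yy F - pp w') + pp t * pp g := by
        rw [e, map_add, map_mul]
        ring
      rw [SetLike.mem_coe, this]
      exact Ideal.add_mem _ (Ideal.subset_span (Set.mem_insert_of_mem _ rfl))
        (Ideal.mul_mem_left _ _ (Ideal.subset_span (Set.mem_insert _ _)))

theorem two_roots (hg : Irreducible g) (hd : g ∣ F - w ^ 2) (hd' : g ∣ F - w' ^ 2) :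
    pid F g w' = pid F g w ∧ pid F g (-w') = pid F g (-w) ∨
      pid F g w' = pid F g (-w) ∧ pid F g (-w') = pid F g w := by
  have hprod : g ∣ (w' - w) * (w' + w) := by
    have : (w' - w) * (w' + w) = (F - w ^ 2) - (F - w' ^ 2) := by ring
    rw [this]
    exact dvd_sub hd hd'
  rcases hg.prime.dvd_or_dvd hprod with h | h
  · refine Or.inl ⟨pid_congr h, pid_congr ?_⟩
    have : -w' - -w = -(w' - w) := by ring
    rw [this]
    exact (dvd_neg).2 h
  · refine Or.inr ⟨pid_congr ?_, pid_congr ?_⟩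
    · rwa [sub_neg_eq_add]
    · have : -w' - w = -(w' + w) := by ring
      rw [this]
      exact (dvd_neg).2 h

theorem dd_swap {R : Type} [CommRing R] [IsDedekindDomain R] (P P' I : Ideal R) :
    dd P' P I = -dd P P' I := by
  unfold dd
  ring

theorem cls_roots (h2 : (2 : L) ≠ 0) (hg : Irreducible g) (hd : g ∣ F - w ^ 2) (hw : ¬ g ∣ w)
    (hd' : g ∣ F - w' ^ 2) [IsDedekindDomain (CR F)] (H : Subgroup (ClassGroup (CR F)))
    (h : cls F g w hg.ne_zero ∈ H) : cls F g w' hg.ne_zero ∈ H := by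
  rcases two_roots hg hd hd' with ⟨h1, -⟩ | ⟨h1, -⟩
  · have e : idl F g w' hg.ne_zero = idl F g w hg.ne_zero := Subtype.ext h1
    unfold cls at h ⊢
    rw [e]
    exact h
  · have e : idl F g w' hg.ne_zero = idl F g (-w) hg.ne_zero := Subtype.ext h1
    have h3 : cls F g (-w) hg.ne_zero ∈ H := by
      rw [cls_neg h2 hg.ne_zero hd ((hg.coprime_iff_not_dvd).2 hw)]
      exact H.inv_mem h
    unfold cls at h3 ⊢
    rw [e]
    exact h3

end

section
variable {M L : Type} [Field M] [Field L] [Algebra M L] {ω : L} {a b c : M[X]}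

open Classical in
/-- **The rank of the class group.** -/
theorem rank_cb (h2 : (2 : M) ≠ 0) (hω : Transcendental M ω)
    (hL : ∀ z : L, ∃ p q : M[X], aeval ω q ≠ 0 ∧ z * aeval ω q = aeval ω p)
    [IsDedekindDomain (CR (fq a b c ω))] (hodd : Odd c.natDegree) (hac : a.natDegree < c.natDegree)
    (hbc : b.natDegree < c.natDegree) (hsq : Squarefree (fq a b c ω))
    (hΔ : b ^ 2 - 4 * a * c ≠ 0) {ι : Type} [Fintype ι] (φ r s : ι → M[X])
    (hφm : ∀ i, (φ i).Monic) (hφi : ∀ i, Irreducible (φ i)) (hinj : Function.Injective φ)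
    (hS : ∀ i, Spl a b c (φ i) (r i) (s i))
    (hall : ∀ δ r' s' : M[X], δ.Monic → Irreducible δ → Spl a b c δ r' s' → ∃ i, φ i = δ) :
    Module.rank ℤ (Additive (ClassGroup (CR (fq a b c ω)))) =
      ((Fintype.card ι - if a ≠ 0 ∧ IsSquare a then 1 else 0 : ℕ) : Cardinal) := by
  classical
  have h2L : (2 : L) ≠ 0 := by
    rw [← map_ofNat (algebraMap M L) 2]
    exact fun h => h2 ((map_eq_zero _).1 h)
  have hoddF : Odd (fq a b c ω).natDegree := by rw [deg_fq hac hbc]; exact hodd
  let g : ι → L[X] := fun i => up (φ i)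
  let w : ι → L[X] := fun i => wr ω (r i) (s i)
  have hgi : ∀ i, Irreducible (g i) := fun i => irr_up hω hL (hφi i) (hφm i)
  have hd : ∀ i, g i ∣ fq a b c ω - w i ^ 2 := fun i => (hS i).dvd hω (hφm i)
  have hnd : ∀ i, ¬ g i ∣ w i := fun i => (hS i).not_dvd hω (hφm i)
  have hcop : ∀ i j, i ≠ j → IsCoprime (g i) (g j) := fun i j hij =>
    (cop_phi hφi hφm hinj hij).map (mapRingHom (algebraMap M L))
  have hP : Pts (fq a b c ω) g w :=
    ⟨fun i => (hφm i).map _, hd, fun i => ((hgi i).coprime_iff_not_dvd).2 (hnd i), hcop⟩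
  let cl : ι → ClassGroup (CR (fq a b c ω)) := fun i => cls (fq a b c ω) (g i) (w i) (hgi i).ne_zero
  -- a relation gives a solution of the norm equation
  have hrel : ∀ x : ι → ℤ, ∏ i, cl i ^ x i = 1 → ∃ (P Q : M[X][X]) (γ : M[X]), γ ≠ 0 ∧
      P ^ 2 - f2 a b c * Q ^ 2 = C γ ∧
      ∀ i, dw (fq a b c ω) (g i) (w i) (Ideal.span {el (bb ω P) (bb ω Q)}) = x i := by
    intro x hx
    let t : ι → L[X] := fun i => if 0 ≤ x i then w i else -w i
    have ht : ∀ i, (0 ≤ x i → t i = w i) ∧ (x i < 0 → t i = -w i) := fun i =>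
      ⟨fun h => if_pos h, fun h => if_neg (not_le.2 h)⟩
    have htw : ∀ i, t i = w i ∨ t i = -w i := fun i => by
      by_cases h : 0 ≤ x i
      · exact Or.inl (if_pos h)
      · exact Or.inr (if_neg h)
    have hPt := hP.sign t htw
    have hJ0 := JJ_ne (F := fq a b c ω) (fun i => (hP.monic i).ne_zero) t (fun i => (x i).natAbs)
    have hne : JJ (fq a b c ω) g t (fun i => (x i).natAbs) ∈
        nonZeroDivisors (Ideal (CR (fq a b c ω))) := mem_nonZeroDivisors_iff_ne_zero.2 hJ0
    have h1 : ∏ i, cls (fq a b c ω) (g i) (w i) (hP.monic i).ne_zero ^ x i = 1 := hx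
    rw [prod_cls h2L hP x t ht hne, ClassGroup.mk0_eq_one_iff] at h1
    obtain ⟨z, hz⟩ := h1
    rw [Ideal.submodule_span_eq] at hz
    obtain ⟨W, V, rfl⟩ := exists_el z
    have hz' : JJ (fq a b c ω) g t (fun i => (x i).natAbs) = Ideal.span {el W V} := hz
    obtain ⟨d, hd0, hN⟩ := norm_eq h2L hPt _ hz'
    obtain ⟨G, hG⟩ : ∃ G : M[X], G = ∏ i, (φ i) ^ (x i).natAbs := ⟨_, rfl⟩
    have hG0 : G ≠ 0 := by
      rw [hG]
      exact Finset.prod_ne_zero_iff.2 fun i _ => pow_ne_zero _ (hφm i).ne_zero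
    have hGu : (up G : L[X]) = ∏ i, g i ^ (x i).natAbs := by
      rw [hG, up_prod]
      exact Finset.prod_congr rfl fun i _ => up_pow _ _
    rw [← hGu] at hN
    obtain ⟨u, P, Q, m, hu, hm, e1, e2, e3⟩ := descent hω hL hodd hac hbc hG0 hd0 hN
    refine ⟨P, Q, C m * G, mul_ne_zero (C_ne_zero.2 hm) hG0, e3, ?_⟩
    intro i
    have hsp : Ideal.span {(el (bb ω P) (bb ω Q) : CR (fq a b c ω))} =
        JJ (fq a b c ω) g t (fun i => (x i).natAbs) := by
      rw [hz', Ideal.span_singleton_eq_span_singleton]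
      have h5 : (el (bb ω P) (bb ω Q) : CR (fq a b c ω)) = pp (C u) * el W V := by
        rw [e1, e2]
        unfold el
        simp only [map_mul]
        ring
      rw [h5]
      exact (associated_unit_mul_left _ _ (pp_unit hu))
    rw [hsp]
    unfold JJ
    show dd _ _ _ = _
    have hpidne : ∀ j, pid (fq a b c ω) (g j) (t j) ≠ 0 := fun j => pid_ne (hgi j).ne_zero _
    rw [dd_prod _ _ fun j => pow_ne_zero _ (hpidne j)]
    have hdt : ∀ j, g j ∣ fq a b c ω - t j ^ 2 := fun j => hPt.dvd j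
    have hoth : ∀ j, j ≠ i → dd (pid (fq a b c ω) (g i) (w i)) (pid (fq a b c ω) (g i) (-w i))
        (pid (fq a b c ω) (g j) (t j)) = 0 := by
      intro j hji
      have hnot : ∀ w' : L[X], g i ∣ fq a b c ω - w' ^ 2 →
          pid (fq a b c ω) (g j) (t j) ≠ pid (fq a b c ω) (g i) w' := by
        intro w' hw' heq
        have h6 : (pp (g j) : CR (fq a b c ω)) ∈ pid (fq a b c ω) (g i) w' := by
          rw [← heq]
          exact pp_mem_pid _ _
        rw [pp_mem_iff (hgi i) hw'] at h6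
        exact (hgi i).not_isUnit ((hcop i j hji.symm).isUnit_of_dvd' dvd_rfl h6)
      exact dd_other (pid_prime (hgi j) (hdt j)) (hpidne j) (hnot _ (hd i))
        (hnot _ (dvd_neg_w (hd i)))
    rw [Finset.sum_eq_single i]
    · rw [dd_pow (hpidne i)]
      have hPp := pid_prime (hgi i) (hd i)
      have hPp' := pid_prime (hgi i) (dvd_neg_w (hd i))
      have hne' := pid_ne_neg h2L (hgi i) (hd i) (hnd i)
      by_cases h0 : 0 ≤ x i
      · rw [(ht i).1 h0, dd_left hPp (pid_ne (hgi i).ne_zero _) hne', mul_one]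
        exact Int.natAbs_of_nonneg h0
      · rw [(ht i).2 (not_le.1 h0), dd_right hPp' (pid_ne (hgi i).ne_zero _) hne']
        omega
    · intro j _ hji
      rw [dd_pow (hpidne j), hoth j hji, mul_zero]
    · intro h
      exact (h (Finset.mem_univ i)).elim
  have hvert : ∀ (H : Subgroup (ClassGroup (CR (fq a b c ω)))),
      (∀ (c' : ClassGroup (CR (fq a b c ω))) (n : ℕ), n ≠ 0 → c' ^ n ∈ H → c' ∈ H) →
      ∀ (δ : M[X]), δ.Monic → Irreducible δ → (∀ i, φ i = δ → cl i ∈ H) →
      ∀ (𝔮 : Ideal (CR (fq a b c ω))) (h0 : 𝔮 ∈ nonZeroDivisors (Ideal (CR (fq a b c ω)))),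
        𝔮.IsPrime → (pp (up δ) : CR (fq a b c ω)) ∈ 𝔮 → ClassGroup.mk0 ⟨𝔮, h0⟩ ∈ H := by
    intro H hsat δ hδm hδi hcl 𝔮 h0 hq hδq
    refine vert1 h2L hω hL H hsat hδm hδi ?_ 𝔮 h0 hq hδq
    intro r' s' hne hspl
    obtain ⟨i, rfl⟩ := hall δ r' s' hδm hδi hspl
    exact cls_roots h2L (hgi i) (hd i) (hnd i) (hspl.dvd hω hδm) H (hcl i rfl)
  have hcfg := cfg h2 hω hL hΔ
  by_cases hsqa : a ≠ 0 ∧ IsSquare a
  · -- the leading coefficient is a square
    obtain ⟨ha0, α, haα⟩ := hsqa
    rw [if_pos ⟨ha0, α, haα⟩]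
    have hα : α ≠ 0 := by
      rintro rfl
      rw [mul_zero] at haα
      exact ha0 haα
    rw [← sq] at haα
    obtain ⟨δ, r', s', hδm, hδi, hspl, hdw⟩ := exists_split h2 hω hL hodd hac hbc hsq hα haα hΔ
    obtain ⟨i₀, rfl⟩ := hall δ r' s' hδm hδi hspl
    obtain ⟨E, hE⟩ : ∃ E, E = e1 ω a b c α := ⟨_, rfl⟩
    have hdw0 : dw (fq a b c ω) (g i₀) (w i₀) (Ideal.span {E}) ≠ 0 := by
      rw [← hE] at hdw
      rcases two_roots (hgi i₀) (hd i₀) (hspl.dvd hω hδm) with ⟨k1, k2⟩ | ⟨k1, k2⟩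
      · intro h
        apply hdw
        have h' : dd (pid (fq a b c ω) (g i₀) (w i₀)) (pid (fq a b c ω) (g i₀) (-w i₀))
          (Ideal.span {E}) = 0 := h
        rw [← k1, ← k2] at h'
        exact h'
      · intro h
        apply hdw
        have h' : dd (pid (fq a b c ω) (g i₀) (w i₀)) (pid (fq a b c ω) (g i₀) (-w i₀))
          (Ideal.span {E}) = 0 := h
        rw [← k1, ← k2, dd_swap, neg_eq_zero] at h'
        exact h'
    let v : {i : ι // i ≠ i₀} → Additive (ClassGroup (CR (fq a b c ω))) := fun j => Additive.ofMul (cl j.1)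
    have hli : LinearIndependent ℤ v := by
      rw [Fintype.linearIndependent_iff]
      intro z hz
      let x : ι → ℤ := fun i => if h : i ≠ i₀ then z ⟨i, h⟩ else 0
      have hx0 : x i₀ = 0 := dif_neg (not_not.2 rfl)
      have hx1 : ∏ i, cl i ^ x i = 1 := by
        have h3 : Additive.ofMul (∏ i, cl i ^ x i) = 0 := by
          rw [ofMul_prod, ← Finset.sum_erase_add _ _ (Finset.mem_univ i₀), hx0, zpow_zero, ofMul_one,
            add_zero, ← hz]
          rw [Finset.sum_subtype (Finset.univ.erase i₀) (p := fun i => i ≠ i₀) (fun i => by simp)]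
          refine Finset.sum_congr rfl fun j _ => ?_
          have : x j.1 = z j := dif_pos j.2
          rw [this, ofMul_zpow]
        exact h3
      obtain ⟨P, Q, γ, hγ, hN, hdi⟩ := hrel x hx1
      obtain ⟨k, hk⟩ := pell h2 hω hα haα hΔ (Q.natDegree + 1) P Q γ hγ hN (Or.inr (Nat.lt_succ_self _))
      have hk0 : k = 0 := by
        have h4 := hk (g i₀) (w i₀) (hgi i₀) (hd i₀) (hnd i₀)
        rw [hdi, hx0, ← hE] at h4
        rcases mul_eq_zero.1 h4.symm with h5 | h5
        · exact h5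
        · exact absurd h5 hdw0
      intro j
      have h4 := hk (g j.1) (w j.1) (hgi j.1) (hd j.1) (hnd j.1)
      rw [hdi, hk0, zero_mul] at h4
      have : x j.1 = z j := dif_pos j.2
      rw [← this, h4]
    set N : Submodule ℤ (Additive (ClassGroup (CR (fq a b c ω)))) := Submodule.span ℤ (Set.range v)
      with hN
    have hsat := sat_sat N
    have hcl : ∀ i, i ≠ i₀ → cl i ∈ sat N := fun i hi => mem_sat (Submodule.subset_span ⟨⟨i, hi⟩, rfl⟩)
    have hvert' : ∀ (δ : M[X]), δ.Monic → Irreducible δ → δ ≠ φ i₀ →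
        ∀ (𝔮 : Ideal (CR (fq a b c ω))) (h0 : 𝔮 ∈ nonZeroDivisors (Ideal (CR (fq a b c ω)))),
        𝔮.IsPrime → (pp (up δ) : CR (fq a b c ω)) ∈ 𝔮 → ClassGroup.mk0 ⟨𝔮, h0⟩ ∈ sat N := by
      intro δ hδm hδi hne 𝔮 h0 hq hδq
      refine hvert (sat N) hsat δ hδm hδi (fun i hi => hcl i ?_) 𝔮 h0 hq hδq
      rintro rfl
      exact hne hi.symm
    -- the class over the divisor which is left out
    have hcl0 : cl i₀ ∈ sat N := by
      have hE0 : E ≠ 0 := by
        rw [hE]
        unfold e1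
        intro h
        have h3 := (el_eq_zero h).2
        have h4 : (C (2 * α) : M[X][X]) = 0 := bb_inj hω (by rw [h3, map_zero])
        rw [C_eq_zero] at h4
        exact mul_ne_zero hcfg.two hα h4
      have hI0 : Ideal.span {E} ≠ (0 : Ideal (CR (fq a b c ω))) := span_ne hE0
      have hPp := pid_prime (hgi i₀) (hd i₀)
      have hPp' := pid_prime (hgi i₀) (dvd_neg_w (hd i₀))
      have hne' := pid_ne_neg h2L (hgi i₀) (hd i₀) (hnd i₀)
      have hP0 : pid (fq a b c ω) (g i₀) (w i₀) ≠ 0 := pid_ne (hgi i₀).ne_zero _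
      have hP0' : pid (fq a b c ω) (g i₀) (-w i₀) ≠ 0 := pid_ne (hgi i₀).ne_zero _
      have hpr := Ideal.prime_of_isPrime hP0 hPp
      have hpr' := Ideal.prime_of_isPrime hP0' hPp'
      obtain ⟨J1, hJ1, hJ1n⟩ := (FiniteMultiplicity.of_prime_left hpr hI0).exists_eq_pow_mul_and_not_dvd
      set n1 := multiplicity (pid (fq a b c ω) (g i₀) (w i₀)) (Ideal.span {E})
      have hJ10 : J1 ≠ 0 := by
        rintro rfl
        rw [mul_zero] at hJ1
        exact hI0 hJ1
      obtain ⟨J, hJ, hJn⟩ := (FiniteMultiplicity.of_prime_left hpr' hJ10).exists_eq_pow_mul_and_not_dvd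
      set n2 := multiplicity (pid (fq a b c ω) (g i₀) (-w i₀)) J1
      have hJ0 : J ≠ 0 := by
        rintro rfl
        rw [mul_zero] at hJ
        exact hJ10 hJ
      have hJn1 : ¬ pid (fq a b c ω) (g i₀) (w i₀) ∣ J := fun h => hJ1n (by
        rw [hJ]
        exact h.mul_left _)
      have hle1 : ¬ J ≤ pid (fq a b c ω) (g i₀) (w i₀) := fun h => hJn1 (Ideal.dvd_iff_le.2 h)
      have hle2 : ¬ J ≤ pid (fq a b c ω) (g i₀) (-w i₀) := fun h => hJn (Ideal.dvd_iff_le.2 h)
      have hdd : dw (fq a b c ω) (g i₀) (w i₀) (Ideal.span {E}) = (n1 : ℤ) - n2 := by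
        show dd _ _ _ = _
        have hJz : dd (pid (fq a b c ω) (g i₀) (w i₀)) (pid (fq a b c ω) (g i₀) (-w i₀)) J = 0 := by
          unfold dd
          rw [count_zero hJ0 hle1, count_zero hJ0 hle2]
          simp
        rw [hJ1, hJ, dd_mul (pow_ne_zero _ hP0) (mul_ne_zero (pow_ne_zero _ hP0') hJ0),
          dd_mul (pow_ne_zero _ hP0') hJ0, dd_pow hP0, dd_pow hP0', dd_left hPp hP0 hne',
          dd_right hPp' hP0' hne', hJz]
        ring
      have hJ' : J ∈ nonZeroDivisors (Ideal (CR (fq a b c ω))) := mem_nonZeroDivisors_of_ne_zero hJ0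
      have hEJ : Ideal.span {E} ≤ J := by
        rw [hJ1, hJ]
        exact Ideal.mul_le_right.trans Ideal.mul_le_right
      have hJcl : ClassGroup.mk0 ⟨J, hJ'⟩ ∈ sat N := by
        refine mem_of_primes _ J hJ' fun 𝔮 h0 hq hle => ?_
        have hEq : E ∈ 𝔮 := hle (hEJ (Ideal.mem_span_singleton_self E))
        have hΔq : (pp (bb ω (C (b ^ 2 - 4 * a * c))) : CR (fq a b c ω)) ∈ 𝔮 := by
          have h5 : (pp (bb ω (C (b ^ 2 - 4 * a * c))) : CR (fq a b c ω)) =
              E * cj _ E := by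
            rw [hE]
            unfold e1
            rw [el_mul_cj, ← tt_sq (a := a) (b := b) (c := c)]
            congr 1
            unfold fq
            have e5 : (C a : M[X][X]) = C α ^ 2 := by rw [haα, C_pow]
            rw [e5]
            simp only [map_sub, map_mul, map_pow, C_mul, show (C 2 : M[X][X]) = 2 from rfl]
            rw [show (bb ω (4 : M[X][X]) : L[X]) = 4 from map_ofNat _ _,
              show (bb ω (2 : M[X][X]) : L[X]) = 2 from map_ofNat _ _]
            ring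
          rw [h5]
          exact 𝔮.mul_mem_right _ hEq
        obtain ⟨δ, hδm', hδi', hδq⟩ := exists_delta 𝔮 hq ⟨_, hΔ, hΔq⟩
        by_cases hδ0 : δ = φ i₀
        · exfalso
          subst hδ0
          have h6 : pid (fq a b c ω) (g i₀) (w i₀) * pid (fq a b c ω) (g i₀) (-w i₀) ≤ 𝔮 := by
            rw [pid_mul h2L (hd i₀) (((hgi i₀).coprime_iff_not_dvd).2 (hnd i₀)),
              Ideal.span_singleton_le_iff_mem]
            exact hδq
          rcases (hq.mul_le).1 h6 with h7 | h7
          · have h8 := eq_of_le hPp hP0 hq h7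
            rw [h8] at hle
            exact hle1 hle
          · have h8 := eq_of_le hPp' hP0' hq h7
            rw [h8] at hle
            exact hle2 hle
        · exact hvert' δ hδm' hδi' hδ0 𝔮 h0 hq hδq
      have hclm : ClassGroup.mk0 ⟨pid (fq a b c ω) (g i₀) (-w i₀),
          mem_nonZeroDivisors_of_ne_zero hP0'⟩ = (cl i₀)⁻¹ :=
        cls_neg h2L (hgi i₀).ne_zero (hd i₀) (((hgi i₀).coprime_iff_not_dvd).2 (hnd i₀))
      have hone : cl i₀ ^ n1 * ((cl i₀)⁻¹ ^ n2 * ClassGroup.mk0 ⟨J, hJ'⟩) = 1 := by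
        rw [← hclm]
        show ClassGroup.mk0 _ ^ n1 * _ = 1
        rw [← map_pow, ← map_pow, ← map_mul, ← map_mul, ClassGroup.mk0_eq_one_iff]
        refine ⟨⟨E, ?_⟩⟩
        rw [Ideal.submodule_span_eq]
        show pid (fq a b c ω) (g i₀) (w i₀) ^ n1 *
          (pid (fq a b c ω) (g i₀) (-w i₀) ^ n2 * J) = _
        rw [← hJ, ← hJ1]
      have hz : cl i₀ ^ ((n1 : ℤ) - n2) ∈ sat N := by
        have h9 : cl i₀ ^ ((n1 : ℤ) - n2) = (ClassGroup.mk0 ⟨J, hJ'⟩)⁻¹ := by
          rw [eq_inv_iff_mul_eq_one, ← hone, zpow_sub, zpow_natCast, zpow_natCast, inv_pow, mul_assoc]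
        rw [h9]
        exact (sat N).inv_mem hJcl
      rw [hdd] at hdw0
      have hnat : cl i₀ ^ ((n1 : ℤ) - n2).natAbs ∈ sat N := by
        rcases Int.natAbs_eq ((n1 : ℤ) - n2) with h10 | h10
        · rw [h10, zpow_natCast] at hz
          exact hz
        · rw [h10, zpow_neg, zpow_natCast] at hz
          exact (sat N).inv_mem_iff.1 hz
      exact hsat _ _ (by rwa [Ne, Int.natAbs_eq_zero]) hnat
    have htop : sat N = ⊤ := by
      refine gen_low hcfg (sat N) hsat fun 𝔮 h0 hq hex => ?_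
      obtain ⟨δ, hδm', hδi', hδq⟩ := exists_delta 𝔮 hq hex
      refine hvert (sat N) hsat δ hδm' hδi' (fun i _ => ?_) 𝔮 h0 hq hδq
      by_cases hi : i = i₀
      · rw [hi]
        exact hcl0
      · exact hcl i hi
    have h11 := rank_of v hli (fun x => by
      have : Additive.toMul x ∈ sat N := by rw [htop]; trivial
      exact this)
    rw [h11]
    congr 1
    rw [Fintype.card_subtype_compl, Fintype.card_subtype_eq]
  · -- the leading coefficient is not a square
    rw [if_neg hsqa, Nat.sub_zero]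
    let v : ι → Additive (ClassGroup (CR (fq a b c ω))) := fun j => Additive.ofMul (cl j)
    have hli : LinearIndependent ℤ v := by
      rw [Fintype.linearIndependent_iff]
      intro x hx
      have hx1 : ∏ i, cl i ^ x i = 1 := by
        have h3 : Additive.ofMul (∏ i, cl i ^ x i) = 0 := by
          rw [ofMul_prod, ← hx]
          exact Finset.sum_congr rfl fun j _ => ofMul_zpow _ _
        exact h3
      obtain ⟨P, Q, γ, hγ, hN, hdi⟩ := hrel x hx1
      have hQ : Q = 0 := by
        by_contra hQ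
        obtain ⟨ha0, -, hl⟩ := top_step hΔ hN hQ
        apply hsqa
        refine ⟨ha0, ?_⟩
        have hlQ : Q.leadingCoeff ≠ 0 := leadingCoeff_ne_zero.2 hQ
        have h3 : Q.leadingCoeff ^ 2 ∣ P.leadingCoeff ^ 2 := ⟨a, by rw [hl]; ring⟩
        obtain ⟨t, ht⟩ := (IsIntegrallyClosed.pow_dvd_pow_iff two_ne_zero).1 h3
        refine ⟨t, ?_⟩
        apply mul_left_cancel₀ (pow_ne_zero 2 hlQ)
        rw [ht] at hl
        linear_combination -hl
      intro i
      rw [← hdi i, hQ, map_zero, el_left]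
      subst hQ
      have hP0 : P ≠ 0 := by
        rintro rfl
        apply hγ
        have h5 : (C γ : M[X][X]) = 0 := by
          rw [← hN]
          ring
        exact C_eq_zero.1 h5
      exact dw_pp h2L (hgi i) (hd i) (hnd i) _ (fun h => hP0 (bb_inj hω (by rw [h, map_zero])))
    set N : Submodule ℤ (Additive (ClassGroup (CR (fq a b c ω)))) := Submodule.span ℤ (Set.range v)
      with hN
    have hsat := sat_sat N
    have htop : sat N = ⊤ := by
      refine gen_low hcfg (sat N) hsat fun 𝔮 h0 hq hex => ?_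
      obtain ⟨δ, hδm', hδi', hδq⟩ := exists_delta 𝔮 hq hex
      refine hvert (sat N) hsat δ hδm' hδi' (fun i _ => ?_) 𝔮 h0 hq hδq
      exact mem_sat (Submodule.subset_span ⟨i, rfl⟩)
    exact rank_of v hli (fun x => by
      have : Additive.toMul x ∈ sat N := by rw [htop]; trivial
      exact this)

end

end Pool.Agent.R410.CB
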