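import Pool.Agent.R410.CB.Low
import Pool.Agent.Y707.DK.Cls

/-!
# The vertical primes of a conic bundle
-/

set_option autoImplicit false
set_option linter.all false
set_option maxHeartbeats 1000000

namespace Pool.Agent.R410.CB

open Polynomial Pool.Agent.TH943.HJ Pool.Agent.Y707.PC
open Pool.Agent.Y707.DK (irr_up prime_over)

section
variable {M L : Type} [Field M] [Field L] [Algebra M L] {ω : L}

/-- evaluation of the coefficients -/
noncomputable def ev (ω : L) : M[X][X] →+* L[X] := mapRingHom (aeval ω : M[X] →ₐ[M] L).toRingHom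

/-- polynomials in `v` over `M[X]` as polynomials in `X` over `L`, `v = ω` -/
noncomputable def bb (ω : L) : M[X][X] →+* L[X] :=
  (ev ω).comp (RingHomClass.toRingHom (Polynomial.Bivariate.swap (R := M)))

theorem bb_apply (P : M[X][X]) : bb ω P = ev ω (Polynomial.Bivariate.swap (R := M) P) := rfl

theorem ev_C (p : M[X]) : ev ω (C p) = C (aeval ω p) := Polynomial.map_C _

theorem ev_map_C (p : M[X]) : ev ω (p.map C) = up p := by
  show (p.map C).map _ = _
  rw [Polynomial.map_map, up_def]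
  congr 1
  ext m
  show aeval ω (C m) = _
  rw [aeval_C]

theorem bb_C (p : M[X]) : bb ω (C p) = up p := by
  rw [bb_apply, Polynomial.Bivariate.swap_C, ev_map_C]

theorem bb_map_C (p : M[X]) : bb ω (p.map C) = C (aeval ω p) := by
  rw [bb_apply, Polynomial.Bivariate.swap_map_C, ev_C]

theorem bb_X : bb ω (X : M[X][X]) = C ω := by
  rw [bb_apply, Polynomial.Bivariate.swap_Y, ev_C, aeval_X]

theorem ev_inj (hω : Transcendental M ω) : Function.Injective (ev ω : M[X][X] →+* L[X]) :=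
  Polynomial.map_injective _ (transcendental_iff_injective.1 hω)

theorem bb_inj (hω : Transcendental M ω) : Function.Injective (bb ω : M[X][X] →+* L[X]) :=
  (ev_inj hω).comp (Polynomial.Bivariate.swap (R := M)).injective

theorem clear2 (hω : Transcendental M ω)
    (hL : ∀ z : L, ∃ p q : M[X], aeval ω q ≠ 0 ∧ z * aeval ω q = aeval ω p) (W : L[X]) :
    ∃ (D : M[X]) (P : M[X][X]), D ≠ 0 ∧ bb ω P = C (aeval ω D) * W := by
  obtain ⟨D, W', h1, h2⟩ := clear hω hL W
  refine ⟨D, (Polynomial.Bivariate.swap (R := M)).symm W', h1, ?_⟩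
  rw [bb_apply, AlgEquiv.apply_symm_apply]
  exact h2

theorem aeval_ne (hω : Transcendental M ω) {D : M[X]} (hD : D ≠ 0) : aeval ω D ≠ 0 := by
  intro h
  apply hD
  apply transcendental_iff_injective.1 hω
  rw [h, map_zero]

/-- the polynomial of the curve -/
noncomputable def fq (a b c : M[X]) (ω : L) : L[X] := bb ω (f2 a b c)

theorem fq_eq (a b c : M[X]) : fq a b c ω = up c + C ω * up b + C (ω ^ 2) * up a := by
  unfold fq f2
  rw [map_add, map_add, map_mul, map_mul, map_pow, bb_C, bb_C, bb_C, bb_X, C_pow]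
  ring

theorem pp_unit {F : L[X]} {u : L} (hu : u ≠ 0) : IsUnit (pp (C u) : CR F) := by
  apply IsUnit.map
  exact isUnit_C.2 (isUnit_iff_ne_zero.2 hu)

/-- the generic fibre of the conic bundle -/
theorem cfg (h2 : (2 : M) ≠ 0) (hω : Transcendental M ω)
    (hL : ∀ z : L, ∃ p q : M[X], aeval ω q ≠ 0 ∧ z * aeval ω q = aeval ω p) {a b c : M[X]}
    (hΔ : b ^ 2 - 4 * a * c ≠ 0) :
    Cfg M[X] (CR (fq a b c ω)) ((pp).comp (bb ω)) (yy (fq a b c ω)) a b c where
  sq := yy_sq _
  den z := by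
    obtain ⟨p, q, rfl⟩ := exists_el z
    obtain ⟨D1, P1, hD1, h1⟩ := clear2 hω hL p
    obtain ⟨D2, P2, hD2, h3⟩ := clear2 hω hL q
    refine ⟨pp (C (aeval ω (D1 * D2))), D2.map C * P1, D1.map C * P2,
      pp_unit (aeval_ne hω (mul_ne_zero hD1 hD2)), ?_⟩
    show _ = pp (bb ω (D2.map C * P1)) + pp (bb ω (D1.map C * P2)) * yy _
    rw [map_mul (bb ω), map_mul (bb ω), bb_map_C, bb_map_C, h1, h3, map_mul, C_mul]
    unfold el
    simp only [map_mul]
    ring
  ind P Q h := by
    have h1 : (el (bb ω P) (bb ω Q) : CR (fq a b c ω)) = 0 := h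
    obtain ⟨e1, e2⟩ := el_eq_zero h1
    exact ⟨bb_inj hω (by rw [e1, map_zero]), bb_inj hω (by rw [e2, map_zero])⟩
  two := by
    intro h
    apply h2
    have h1 : (C 2 : M[X]) = 0 := by rw [map_ofNat]; exact h
    exact C_eq_zero.1 h1
  disc := hΔ

/-- divisibility by a polynomial in `X` -/
theorem dvd_bb (hω : Transcendental M ω) {δ : M[X]} (hm : δ.Monic) (P : M[X][X]) :
    (up δ : L[X]) ∣ bb ω P ↔ C δ ∣ P := by
  constructor
  · intro h
    by_cases hd0 : δ.natDegree = 0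
    · have : δ = 1 := eq_one_of_monic_natDegree_zero hm hd0
      rw [this, C_1]
      exact one_dvd _
    have hmC : (δ.map C : M[X][X]).Monic := hm.map _
    obtain ⟨W, hW⟩ : ∃ W, W = Polynomial.Bivariate.swap (R := M) P := ⟨_, rfl⟩
    rw [bb_apply, ← hW] at h
    have h1 := modByMonic_add_div W (δ.map C : M[X][X])
    have h2 : (up δ : L[X]) ∣ ev ω (W %ₘ δ.map C) := by
      have h3 := congrArg (ev ω) h1
      rw [map_add, map_mul, ev_map_C] at h3
      rw [← h3] at h
      exact (dvd_add_left (dvd_mul_right _ _)).1 h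
    have h3 : ev ω (W %ₘ δ.map C) = 0 := by
      by_contra hne
      have h4 := natDegree_le_of_dvd h2 hne
      have h5 : (ev ω (W %ₘ δ.map C)).natDegree ≤ (W %ₘ δ.map C).natDegree := natDegree_map_le
      have h6 : (W %ₘ δ.map C).natDegree < (δ.map C : M[X][X]).natDegree := by
        refine natDegree_modByMonic_lt _ hmC ?_
        intro h7
        apply hd0
        rw [← hm.natDegree_map (C : M →+* M[X]), h7, natDegree_one]
      rw [hm.natDegree_map] at h6
      rw [up_def, hm.natDegree_map] at h4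
      omega
    have h4 : W %ₘ δ.map C = 0 := ev_inj hω (by rw [h3, map_zero])
    rw [h4, zero_add] at h1
    refine ⟨(Polynomial.Bivariate.swap (R := M)).symm (W /ₘ δ.map C), ?_⟩
    apply (Polynomial.Bivariate.swap (R := M)).injective
    rw [map_mul, AlgEquiv.apply_symm_apply, Polynomial.Bivariate.swap_C, h1, hW]
  · rintro ⟨Q, rfl⟩
    rw [map_mul, bb_C]
    exact dvd_mul_right _ _

/-- reduction modulo a polynomial in `X` -/
noncomputable def rd (δ : M[X]) : M[X][X] →+* (AdjoinRoot δ)[X] := mapRingHom (AdjoinRoot.mk δ)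

theorem rd_zero (δ : M[X]) (P : M[X][X]) : rd δ P = 0 ↔ C δ ∣ P := by
  rw [C_dvd_iff_dvd_coeff]
  constructor
  · intro h i
    have h4 := congrArg (fun q => coeff q i) h
    have h5 : coeff (rd δ P) i = AdjoinRoot.mk δ (P.coeff i) := coeff_map _ _
    simp only [coeff_zero] at h4
    rw [h5, AdjoinRoot.mk_eq_zero] at h4
    exact h4
  · intro h
    ext i
    have h5 : coeff (rd δ P) i = AdjoinRoot.mk δ (P.coeff i) := coeff_map _ _
    rw [h5, coeff_zero, AdjoinRoot.mk_eq_zero]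
    exact h i

/-- the conditions for a split vertical divisor -/
structure Spl (a b c δ r s : M[X]) : Prop where
  ha : δ ∣ a - r ^ 2
  hb : δ ∣ b - 2 * r * s
  hc : δ ∣ c - s ^ 2
  ne : ¬ (δ ∣ r ∧ δ ∣ s)

variable {a b c δ r s : M[X]}

theorem Spl.sq (h : Spl a b c δ r s) : C δ ∣ f2 a b c - (C s + C r * X) ^ 2 := by
  have e : f2 a b c - (C s + C r * X) ^ 2 = C (a - r ^ 2) * X ^ 2 + C (b - 2 * r * s) * X +
      C (c - s ^ 2) := by
    unfold f2
    simp only [C_sub, C_mul, C_pow, show (C 2 : M[X][X]) = 2 from rfl]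
    ring
  rw [e]
  refine dvd_add (dvd_add ?_ ?_) ?_
  · exact (_root_.map_dvd C h.ha).mul_right _
  · exact (_root_.map_dvd C h.hb).mul_right _
  · exact _root_.map_dvd C h.hc

/-- the square root modulo `δ` -/
noncomputable def wr (ω : L) (r s : M[X]) : L[X] := bb ω (C s + C r * X)

theorem Spl.dvd (h : Spl a b c δ r s) (hω : Transcendental M ω) (hm : δ.Monic) :
    (up δ : L[X]) ∣ fq a b c ω - wr ω r s ^ 2 := by
  unfold fq wr
  rw [← map_pow, ← map_sub, dvd_bb hω hm]
  exact h.sq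

theorem Spl.not_dvd (h : Spl a b c δ r s) (hω : Transcendental M ω) (hm : δ.Monic) :
    ¬ (up δ : L[X]) ∣ wr ω r s := by
  unfold wr
  rw [dvd_bb hω hm, C_dvd_iff_dvd_coeff]
  intro h1
  apply h.ne
  constructor
  · have := h1 1
    simpa using this
  · have := h1 0
    simpa using this

/-- A square root modulo `δ` comes from a polynomial of degree one. -/
theorem spl_of_sq (hω : Transcendental M ω)
    (hL : ∀ z : L, ∃ p q : M[X], aeval ω q ≠ 0 ∧ z * aeval ω q = aeval ω p)
    (hm : δ.Monic) (hirr : Irreducible δ) {w : L[X]} (h1 : (up δ : L[X]) ∣ fq a b c ω - w ^ 2)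
    (h2 : ¬ (up δ : L[X]) ∣ w) : ∃ r s : M[X], Spl a b c δ r s := by
  have hgi : Irreducible (up δ : L[X]) := irr_up hω hL hirr hm
  have : Fact (Irreducible δ) := ⟨hirr⟩
  obtain ⟨D, P, hD, hP⟩ := clear2 hω hL w
  have h3 : C δ ∣ (D.map C) ^ 2 * f2 a b c - P ^ 2 := by
    rw [← dvd_bb hω hm, map_sub, map_mul, map_pow, map_pow, bb_map_C, hP]
    obtain ⟨t, ht⟩ := h1
    refine ⟨C (aeval ω D) ^ 2 * t, ?_⟩
    unfold fq at ht
    linear_combination C (aeval ω D) ^ 2 * ht
  rw [← rd_zero, map_sub, map_mul, map_pow, map_pow, sub_eq_zero] at h3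
  have hD0 : rd δ (D.map C) ≠ 0 := by
    rw [Ne, rd_zero, C_dvd_iff_dvd_coeff]
    intro h4
    obtain ⟨i, hi⟩ : ∃ i, D.coeff i ≠ 0 := by
      by_contra hcon
      push Not at hcon
      exact hD (Polynomial.ext fun j => by rw [hcon j, coeff_zero])
    have h5 := h4 i
    rw [coeff_map] at h5
    exact hirr.not_isUnit (isUnit_of_dvd_unit h5 (isUnit_C.2 (isUnit_iff_ne_zero.2 hi)))
  have h4 : rd δ (D.map C) ^ 2 ∣ rd δ P ^ 2 := ⟨_, h3.symm⟩
  have h5 : rd δ (D.map C) ∣ rd δ P := (IsIntegrallyClosed.pow_dvd_pow_iff two_ne_zero).1 h4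
  obtain ⟨G, hG⟩ := h5
  have h6 : rd δ (f2 a b c) = G ^ 2 := by
    apply mul_left_cancel₀ (pow_ne_zero 2 hD0)
    rw [h3, hG]
    ring
  have hdeg : (rd δ (f2 a b c)).natDegree ≤ 2 := by
    refine (natDegree_map_le).trans ?_
    unfold f2
    compute_degree
  have hG1 : G.natDegree ≤ 1 := by
    rw [h6, natDegree_pow] at hdeg
    omega
  have hGe := Polynomial.eq_X_add_C_of_natDegree_le_one hG1
  obtain ⟨r, hr⟩ := AdjoinRoot.mk_surjective (g := δ) (G.coeff 1)
  obtain ⟨s, hs⟩ := AdjoinRoot.mk_surjective (g := δ) (G.coeff 0)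
  have hG2 : G = rd δ (C s + C r * X) := by
    rw [hGe, ← hr, ← hs]
    unfold rd
    rw [coe_mapRingHom, Polynomial.map_add, Polynomial.map_mul, Polynomial.map_C, Polynomial.map_C,
      Polynomial.map_X]
    ring
  have h7 : C δ ∣ f2 a b c - (C s + C r * X) ^ 2 := by
    rw [← rd_zero, map_sub, map_pow, ← hG2, h6, sub_self]
  have e : f2 a b c - (C s + C r * X) ^ 2 = C (a - r ^ 2) * X ^ 2 + C (b - 2 * r * s) * X +
      C (c - s ^ 2) := by
    unfold f2
    simp only [C_sub, C_mul, C_pow, show (C 2 : M[X][X]) = 2 from rfl]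
    ring
  rw [e, C_dvd_iff_dvd_coeff] at h7
  refine ⟨r, s, ?_, ?_, ?_, ?_⟩
  · have := h7 2
    simp only [coeff_add, coeff_C_mul, coeff_X_pow, coeff_X, coeff_C] at this
    norm_num at this
    exact this
  · have := h7 1
    simp only [coeff_add, coeff_C_mul, coeff_X_pow, coeff_X, coeff_C] at this
    norm_num at this
    exact this
  · have := h7 0
    simp only [coeff_add, coeff_C_mul, coeff_X_pow, coeff_X, coeff_C] at this
    norm_num at this
    exact this
  · rintro ⟨hr', hs'⟩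
    apply h2
    have h8 : rd δ (f2 a b c) = 0 := by
      rw [h6, hG2, ← map_pow, rd_zero]
      have : C δ ∣ C s + C r * X := dvd_add (_root_.map_dvd C hs') ((_root_.map_dvd C hr').mul_right _)
      exact this.trans (dvd_pow_self _ two_ne_zero)
    rw [rd_zero, ← dvd_bb (ω := ω) hω hm] at h8
    have h9 : (up δ : L[X]) ∣ w ^ 2 := by
      have : w ^ 2 = bb ω (f2 a b c) - (fq a b c ω - w ^ 2) := by
        unfold fq
        ring
      rw [this]
      exact dvd_sub h8 h1
    exact hgi.prime.dvd_of_dvd_pow h9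

/-- an irreducible polynomial in a vertical prime -/
theorem exists_delta [IsDedekindDomain (CR (fq a b c ω))] (𝔮 : Ideal (CR (fq a b c ω)))
    (hq : 𝔮.IsPrime) (hex : ∃ m : M[X], m ≠ 0 ∧ ((pp).comp (bb ω) : M[X][X] →+* CR (fq a b c ω)) (C m) ∈ 𝔮) :
    ∃ δ : M[X], δ.Monic ∧ Irreducible δ ∧ (pp (up δ) : CR (fq a b c ω)) ∈ 𝔮 := by
  classical
  obtain ⟨m, hm0, hm⟩ := hex
  let κ : M[X] →+* CR (fq a b c ω) := (pp).comp (mapRingHom (algebraMap M L))
  have hκ : ∀ p : M[X], κ p = pp (up p) := fun p => rfl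
  let 𝔯 : Ideal M[X] := 𝔮.comap κ
  have h𝔯p : 𝔯.IsPrime := Ideal.comap_isPrime κ 𝔮
  have hm' : m ∈ 𝔯 := by
    show κ m ∈ 𝔮
    rw [hκ, ← bb_C (ω := ω)]
    exact hm
  have h𝔯0 : 𝔯 ≠ ⊥ := by
    intro h
    rw [h, Ideal.mem_bot] at hm'
    exact hm0 hm'
  obtain ⟨g, hg⟩ := (IsPrincipalIdealRing.principal 𝔯).principal
  have hg' : 𝔯 = Ideal.span {g} := hg
  have hg0 : g ≠ 0 := by
    rintro rfl
    apply h𝔯0
    rw [hg', Ideal.span_singleton_eq_bot]
  have hgp : Prime g := (Ideal.span_singleton_prime hg0).1 (hg' ▸ h𝔯p)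
  have hgl : IsUnit (C g.leadingCoeff⁻¹ : M[X]) :=
    isUnit_C.2 (isUnit_iff_ne_zero.2 (inv_ne_zero (leadingCoeff_ne_zero.2 hg0)))
  refine ⟨g * C g.leadingCoeff⁻¹, monic_mul_leadingCoeff_inv hg0, ?_, ?_⟩
  · exact (irreducible_mul_isUnit hgl).2 hgp.irreducible
  · have h1 : g ∈ 𝔯 := by
      rw [hg']
      exact Ideal.mem_span_singleton_self g
    have h3 : g * C g.leadingCoeff⁻¹ ∈ 𝔯 := 𝔯.mul_mem_right _ h1
    exact h3

/-- **The vertical primes.** -/
theorem vert1 (h2 : (2 : L) ≠ 0) (hω : Transcendental M ω)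
    (hL : ∀ z : L, ∃ p q : M[X], aeval ω q ≠ 0 ∧ z * aeval ω q = aeval ω p)
    [IsDedekindDomain (CR (fq a b c ω))] (H : Subgroup (ClassGroup (CR (fq a b c ω))))
    (hsat : ∀ (c' : ClassGroup (CR (fq a b c ω))) (n : ℕ), n ≠ 0 → c' ^ n ∈ H → c' ∈ H)
    (hδm : δ.Monic) (hδi : Irreducible δ)
    (hH : ∀ (r s : M[X]) (hδ : (up δ : L[X]) ≠ 0), Spl a b c δ r s →
      cls (fq a b c ω) (up δ) (wr ω r s) hδ ∈ H)
    (𝔮 : Ideal (CR (fq a b c ω))) (h0 : 𝔮 ∈ nonZeroDivisors (Ideal (CR (fq a b c ω))))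
    (hq : 𝔮.IsPrime) (hδq : (pp (up δ) : CR (fq a b c ω)) ∈ 𝔮) :
    ClassGroup.mk0 ⟨𝔮, h0⟩ ∈ H := by
  classical
  have hq0 : 𝔮 ≠ ⊥ := nonZeroDivisors.ne_zero h0
  have hgi : Irreducible (up δ : L[X]) := irr_up hω hL hδi hδm
  have hgne : (up δ : L[X]) ≠ 0 := hgi.ne_zero
  have hppne : (pp (up δ) : CR (fq a b c ω)) ≠ 0 := fun h =>
    hgne (pp_inj (h.trans (map_zero pp).symm))
  have hmem : ∀ x : L[X], (pp x : CR (fq a b c ω)) ∈ 𝔮 → (up δ : L[X]) ∣ x := by
    intro x hx
    by_contra hnd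
    obtain ⟨u, v, huv⟩ := (hgi.coprime_iff_not_dvd).2 hnd
    apply hq.ne_top
    rw [Ideal.eq_top_iff_one, ← map_one (pp : L[X] →+* CR (fq a b c ω)), ← huv, map_add, map_mul,
      map_mul]
    exact 𝔮.add_mem (𝔮.mul_mem_left _ hδq) (𝔮.mul_mem_left _ hx)
  by_cases hw : ∃ w : L[X], yy (fq a b c ω) - pp w ∈ 𝔮
  · obtain ⟨w, hw⟩ := hw
    have hdw : (up δ : L[X]) ∣ fq a b c ω - w ^ 2 := by
      apply hmem
      have h3 : (pp (fq a b c ω - w ^ 2) : CR (fq a b c ω)) =
          (yy (fq a b c ω) - pp w) * (yy (fq a b c ω) + pp w) := by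
        rw [map_sub, map_pow, ← yy_sq]
        ring
      rw [h3]
      exact 𝔮.mul_mem_right _ hw
    by_cases hgw : (up δ : L[X]) ∣ w
    · -- a ramified prime
      have hyq : ∀ 𝔮' : Ideal (CR (fq a b c ω)), 𝔮'.IsPrime → (pp (up δ) : CR (fq a b c ω)) ∈ 𝔮' →
          yy (fq a b c ω) ∈ 𝔮' := by
        intro 𝔮' hq' hδ'
        have h3 : (up δ : L[X]) ∣ fq a b c ω := by
          have h4 : fq a b c ω = (fq a b c ω - w ^ 2) + w ^ 2 := by ring
          rw [h4]
          exact dvd_add hdw (hgw.trans (dvd_pow_self _ two_ne_zero))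
        obtain ⟨t, ht⟩ := h3
        apply hq'.mem_of_pow_mem 2
        have h5 : yy (fq a b c ω) ^ 2 = pp (up δ) * pp t := by
          rw [yy_sq, ← map_mul, ← ht]
        rw [h5]
        exact 𝔮'.mul_mem_right _ hδ'
      refine root_mem H hsat hppne hq h0 hδq fun 𝔮' h0' hq' hx' hne => ?_
      exfalso
      apply hne
      have e1 := prime_over hgi hq hδq (c := 0) (by rw [map_zero, sub_zero]; exact hyq 𝔮 hq hδq)
      have e2 := prime_over hgi hq' hx' (c := 0) (by rw [map_zero, sub_zero]; exact hyq 𝔮' hq' hx')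
      rw [e1, e2]
    · -- a split prime
      obtain ⟨r, s, hs⟩ := spl_of_sq hω hL hδm hδi hdw hgw
      have hc1 := hH r s hgne hs
      have hd1 := hs.dvd hω hδm
      have hnd1 := hs.not_dvd hω hδm
      have hprod : (up δ : L[X]) ∣ (wr ω r s - w) * (wr ω r s + w) := by
        have : (wr ω r s - w) * (wr ω r s + w) = (fq a b c ω - w ^ 2) -
            (fq a b c ω - wr ω r s ^ 2) := by ring
        rw [this]
        exact dvd_sub hdw hd1
      rcases hgi.prime.dvd_or_dvd hprod with h3 | h3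
      · have h4 : 𝔮 = pid (fq a b c ω) (up δ) (wr ω r s) := by
          apply prime_over hgi hq hδq
          have h5 : yy (fq a b c ω) - pp (wr ω r s) = (yy (fq a b c ω) - pp w) -
              pp (wr ω r s - w) := by
            rw [map_sub]
            ring
          rw [h5]
          refine 𝔮.sub_mem hw ?_
          obtain ⟨t, ht⟩ := h3
          rw [ht, map_mul]
          exact 𝔮.mul_mem_right _ hδq
        have e : (⟨𝔮, h0⟩ : nonZeroDivisors (Ideal (CR (fq a b c ω)))) =
            idl (fq a b c ω) (up δ) (wr ω r s) hgne := Subtype.ext h4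
        rw [e]
        exact hc1
      · have h4 : 𝔮 = pid (fq a b c ω) (up δ) (-wr ω r s) := by
          apply prime_over hgi hq hδq
          have h5 : yy (fq a b c ω) - pp (-wr ω r s) = (yy (fq a b c ω) - pp w) +
              pp (wr ω r s + w) := by
            rw [map_neg, map_add]
            ring
          rw [h5]
          refine 𝔮.add_mem hw ?_
          obtain ⟨t, ht⟩ := h3
          rw [ht, map_mul]
          exact 𝔮.mul_mem_right _ hδq
        have e : (⟨𝔮, h0⟩ : nonZeroDivisors (Ideal (CR (fq a b c ω)))) =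
            idl (fq a b c ω) (up δ) (-wr ω r s) hgne := Subtype.ext h4
        rw [e]
        show cls (fq a b c ω) (up δ) (-wr ω r s) hgne ∈ H
        rw [cls_neg h2 hgne hd1 ((hgi.coprime_iff_not_dvd).2 hnd1)]
        exact H.inv_mem hc1
  · -- an inert prime
    push Not at hw
    refine root_mem H hsat hppne hq h0 hδq fun 𝔮' h0' hq' hx' hne => ?_
    exfalso
    apply hne
    refine eq_of_le hq hq0 hq' fun z hz => ?_
    obtain ⟨p, q, rfl⟩ := exists_el z
    have h3 : (up δ : L[X]) ∣ q := by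
      by_contra hnd
      obtain ⟨u, v, huv⟩ := (hgi.coprime_iff_not_dvd).2 hnd
      apply hw (-(v * p))
      have e : yy (fq a b c ω) - pp (-(v * p)) = pp v * el p q + pp u * yy _ * pp (up δ) := by
        have h4 : (pp u * pp (up δ) + pp v * pp q : CR (fq a b c ω)) = 1 := by
          rw [← map_mul, ← map_mul, ← map_add, huv, map_one]
        unfold el
        rw [map_neg, map_mul]
        linear_combination -(yy (fq a b c ω)) * h4
      rw [e]
      exact 𝔮.add_mem (𝔮.mul_mem_left _ hz) (𝔮.mul_mem_left _ hδq)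
    obtain ⟨t, rfl⟩ := h3
    have h4 : (up δ : L[X]) ∣ p := by
      apply hmem
      have e : (pp p : CR (fq a b c ω)) = el p (up δ * t) - pp t * yy _ * pp (up δ) := by
        unfold el
        rw [map_mul]
        ring
      rw [e]
      exact 𝔮.sub_mem hz (𝔮.mul_mem_left _ hδq)
    obtain ⟨t', rfl⟩ := h4
    have e : (el (up δ * t') (up δ * t) : CR (fq a b c ω)) = (pp t' + pp t * yy _) * pp (up δ) := by
      unfold el
      rw [map_mul, map_mul]
      ring
    rw [e]
    exact 𝔮'.mul_mem_left _ hx'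

end

end Pool.Agent.R410.CB
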